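import Pool.Agent.Y483.Mono

/-!
Homogeneous cochains of groups, their transfers along pairs of cocycles which agree up to finite
sets, and the families of cochains generated by the cocycles of the groups of a class.
-/

namespace Pool.Agent.X175.Nov

open Pool.Agent.Y483

section

variable {G A K : Type} [Group G] [Group K]

/-- The map `x ↦ c(x, x⁻¹ b)`. -/
def tc (κ : FinPair G A K) (b : A) (x : G) : K := κ.c x ((κ.σ x)⁻¹ b)

/-- The map `x ↦ d(x, x⁻¹ b)`. -/
def td (κ : FinPair G A K) (b : A) (x : G) : K := κ.d x ((κ.σ x)⁻¹ b)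

/-- The transfer of a function of sequences. -/
noncomputable def tF (κ : FinPair G A K) (F : (ℕ → K) → ℝ) (x : ℕ → G) : ℝ :=
  ∑ᶠ b, (F (fun j => tc κ b (x j)) - F (fun j => td κ b (x j)))

/-- A tuple, continued by its last entry. -/
def ex {n : ℕ} (x : Fin (n + 1) → G) (j : ℕ) : G := x ⟨min j n, by omega⟩

/-- The vertices `1, g₁, g₁g₂, …, g₁⋯gₙ, g₁⋯gₙ, …` of the simplex `(g₁, …, gₙ)`. -/
def vt {n : ℕ} (g : Fin n → G) : ℕ → G := ex (Fin.partialProd g)

/-- Left invariance. -/
def LI (F : (ℕ → G) → ℝ) : Prop := ∀ (g : G) (x : ℕ → G), F (fun j => g * x j) = F x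

/-- The function `F` depends on the entries `x₀, …, xₙ` only. -/
def Loc (n : ℕ) (F : (ℕ → G) → ℝ) : Prop :=
  ∀ x y : ℕ → G, (∀ j ≤ n, x j = y j) → F x = F y

end

/-- The face maps. -/
def dl (i j : ℕ) : ℕ := if j < i then j else j + 1

/-- The cocycle condition. -/
def Coc {G : Type} (n : ℕ) (F : (ℕ → G) → ℝ) : Prop :=
  ∀ x : ℕ → G, ∑ i ∈ Finset.range (n + 2), (-1 : ℝ) ^ i * F (fun j => x (dl i j)) = 0

/-- Homogeneous cocycles of degree `n`: left invariant functions of `x₀, …, xₙ` such that the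
alternating sum of the values at the faces of `(x₀, …, xₙ₊₁)` is zero. -/
def IsCoc {G : Type} [Group G] (n : ℕ) (F : (ℕ → G) → ℝ) : Prop := LI F ∧ Loc n F ∧ Coc n F

/-- The cup product `F(x₀, …, xₙ) F'(xₙ, xₙ₊₁, …)`. -/
def cup {G : Type} (n : ℕ) (F F' : (ℕ → G) → ℝ) (x : ℕ → G) : ℝ := F x * F' (fun j => x (n + j))

/-- The cochains generated by the cocycles of the groups in the class `C` under pullbacks along
homomorphisms, transfers along pairs of cocycles which agree up to finite sets, cup products,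
linear combinations and pointwise limits. -/
inductive Gen (C : (K : Type) → [Group K] → Prop) :
    (G : Type) → [Group G] → ℕ → ((ℕ → G) → ℝ) → Prop
  | base {K : Type} [Group K] (hK : C K) {n : ℕ} {F : (ℕ → K) → ℝ} (hF : IsCoc n F) : Gen C K n F
  | pull {G H : Type} [Group G] [Group H] (f : G →* H) {n : ℕ} {F : (ℕ → H) → ℝ} :
      Gen C H n F → Gen C G n (fun x => F fun j => f (x j))
  | trans {G A K : Type} [Group G] [Group K] (κ : FinPair G A K) {n : ℕ} {F : (ℕ → K) → ℝ} :
      Gen C K n F → Gen C G n (tF κ F)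
  | cup {G : Type} [Group G] {n m : ℕ} {F F' : (ℕ → G) → ℝ} :
      Gen C G n F → Gen C G m F' → Gen C G (n + m) (cup n F F')
  | add {G : Type} [Group G] {n : ℕ} {F F' : (ℕ → G) → ℝ} :
      Gen C G n F → Gen C G n F' → Gen C G n (fun x => F x + F' x)
  | smul {G : Type} [Group G] (r : ℝ) {n : ℕ} {F : (ℕ → G) → ℝ} :
      Gen C G n F → Gen C G n (fun x => r * F x)
  | lim {G : Type} [Group G] {n : ℕ} {F : ℕ → (ℕ → G) → ℝ} {F₀ : (ℕ → G) → ℝ} :
      (∀ k, Gen C G n (F k)) → (∀ x, Filter.Tendsto (fun k => F k x) Filter.atTop (nhds (F₀ x))) →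
        Gen C G n F₀

/-- The group `ℤ^m`. -/
abbrev Zm (m : ℕ) : Type := Multiplicative (Fin m → ℤ)

/-- Torsion-free commutative groups. -/
def TFA (K : Type) [Group K] : Prop :=
  (∀ a b : K, a * b = b * a) ∧ ∀ (g : K) (n : ℕ), 0 < n → g ^ n = 1 → g = 1

/-- The groups isomorphic to a product of a group in `C` and a torsion-free commutative group. -/
def Cx (C : (K : Type) → [Group K] → Prop) (H : Type) [Group H] : Prop :=
  ∃ (K A : Type) (_ : Group K) (_ : Group A), C K ∧ TFA A ∧ Nonempty (H ≃* K × A)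

end Pool.Agent.X175.Nov
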