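import Pool.Agent.X175.Nov.Cls

/-!
The cochains generated by the cocycles of the groups of a class under cup products, pullbacks and
transfers.
-/

namespace Pool.Agent.X175.Nov

open Pool.Agent.Y483 Pool.Agent.Y110.KW Pool.Agent.Y75.MQ Pool.Agent.Y483.PW Finsupp CategoryTheory
  DirectSum

/-- The cross product. -/
def crs {G H : Type} (n : ℕ) (F : (ℕ → G) → ℝ) (F' : (ℕ → H) → ℝ) (x : ℕ → G × H) : ℝ :=
  F (fun j => (x j).1) * F' (fun j => (x (n + j)).2)

theorem IsCoc.crs {G H : Type} [Group G] [Group H] {n m : ℕ} {F : (ℕ → G) → ℝ}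
    {F' : (ℕ → H) → ℝ} (h : IsCoc n F) (h' : IsCoc m F') : IsCoc (n + m) (crs n F F') := by
  obtain ⟨h1, h2, h3⟩ := h
  obtain ⟨h1', h2', h3'⟩ := h'
  refine ⟨?_, ?_, ?_⟩
  · intro g x
    unfold Nov.crs
    have e1 := h1 g.1 (fun j => (x j).1)
    have e2 := h1' g.2 (fun j => (x (n + j)).2)
    change F (fun j => g.1 * (x j).1) * F' (fun j => g.2 * (x (n + j)).2) = _
    rw [e1, e2]
  · intro x y hxy
    unfold Nov.crs
    rw [h2 (fun j => (x j).1) (fun j => (y j).1) fun j hj => by simp only [hxy j (by omega)],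
      h2' (fun j => (x (n + j)).2) (fun j => (y (n + j)).2) fun j hj => by
        simp only [hxy (n + j) (by omega)]]
  · intro x
    have e1 := h3 (fun j => (x j).1)
    have e2 := h3' (fun j => (x (n + j)).2)
    rw [Finset.sum_range_succ] at e1
    rw [Finset.sum_range_succ'] at e2
    have e3 : n + m + 2 = (n + 1) + (m + 1) := by ring
    rw [e3, Finset.sum_range_add]
    unfold Nov.crs
    -- the faces in the first part
    have a1 : ∀ i ∈ Finset.range (n + 1), (-1 : ℝ) ^ i * (F (fun j => (x (dl i j)).1) *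
        F' (fun j => (x (dl i (n + j))).2)) =
        ((-1 : ℝ) ^ i * F (fun j => (x (dl i j)).1)) * F' (fun j => (x (n + j + 1)).2) := by
      intro i hi
      rw [Finset.mem_range] at hi
      have e4 : (fun j => (x (dl i (n + j))).2) = fun j => (x (n + j + 1)).2 := by
        funext j
        have : dl i (n + j) = n + j + 1 := by
          unfold dl
          rw [if_neg (by omega)]
        rw [this]
      rw [e4, mul_assoc]
    have a2 : ∀ i ∈ Finset.range (m + 1), (-1 : ℝ) ^ (n + 1 + i) *
        (F (fun j => (x (dl (n + 1 + i) j)).1) * F' (fun j => (x (dl (n + 1 + i) (n + j))).2)) =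
        ((-1 : ℝ) ^ n * F (fun j => (x j).1)) * ((-1 : ℝ) ^ (i + 1) *
          F' (fun j => (x (n + dl (i + 1) j)).2)) := by
      intro i _
      have e4 : (fun j => (x (dl (n + 1 + i) (n + j))).2) =
          fun j => (x (n + dl (i + 1) j)).2 := by
        funext j
        have : dl (n + 1 + i) (n + j) = n + dl (i + 1) j := by
          unfold dl
          split_ifs <;> omega
        rw [this]
      have e5 : F (fun j => (x (dl (n + 1 + i) j)).1) = F (fun j => (x j).1) := by
        apply h2
        intro j hj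
        have : dl (n + 1 + i) j = j := by
          unfold dl
          rw [if_pos (by omega)]
        simp only [this]
      rw [e4, e5, show n + 1 + i = n + (i + 1) by ring, pow_add]
      ring
    rw [Finset.sum_congr rfl a1, Finset.sum_congr rfl a2, ← Finset.sum_mul, ← Finset.mul_sum]
    have e6 : F (fun j => (x (dl (n + 1) j)).1) = F (fun j => (x j).1) := by
      apply h2
      intro j hj
      have : dl (n + 1) j = j := by
        unfold dl
        rw [if_pos (by omega)]
      simp only [this]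
    rw [e6] at e1
    have e7 : (fun j => (x (n + dl 0 j)).2) = fun j => (x (n + j + 1)).2 := by
      funext j
      rw [dl_zero, add_assoc]
    rw [e7] at e2
    have e8 : ∑ i ∈ Finset.range (n + 1), (-1 : ℝ) ^ i * F (fun j => (x (dl i j)).1) =
        (-1 : ℝ) ^ n * F (fun j => (x j).1) := by
      rw [pow_succ] at e1
      linarith
    have e9 : ∑ i ∈ Finset.range (m + 1), (-1 : ℝ) ^ (i + 1) *
        F' (fun j => (x (n + dl (i + 1) j)).2) = - F' (fun j => (x (n + j + 1)).2) := by
      rw [pow_zero] at e2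
      linarith
    rw [e8, e9]
    ring

/-- The same without cup products. -/
inductive Gn (C : (K : Type) → [Group K] → Prop) :
    (G : Type) → [Group G] → ℕ → ((ℕ → G) → ℝ) → Prop
  | base {K : Type} [Group K] (hK : C K) {n : ℕ} {F : (ℕ → K) → ℝ} (hF : IsCoc n F) : Gn C K n F
  | pull {G H : Type} [Group G] [Group H] (f : G →* H) {n : ℕ} {F : (ℕ → H) → ℝ} :
      Gn C H n F → Gn C G n (fun x => F fun j => f (x j))
  | trans {G A K : Type} [Group G] [Group K] (κ : FinPair G A K) {n : ℕ} {F : (ℕ → K) → ℝ} :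
      Gn C K n F → Gn C G n (tF κ F)
  | add {G : Type} [Group G] {n : ℕ} {F F' : (ℕ → G) → ℝ} :
      Gn C G n F → Gn C G n F' → Gn C G n (fun x => F x + F' x)
  | smul {G : Type} [Group G] (r : ℝ) {n : ℕ} {F : (ℕ → G) → ℝ} :
      Gn C G n F → Gn C G n (fun x => r * F x)
  | lim {G : Type} [Group G] {n : ℕ} {F : ℕ → (ℕ → G) → ℝ} {F₀ : (ℕ → G) → ℝ} :
      (∀ k, Gn C G n (F k)) → (∀ x, Filter.Tendsto (fun k => F k x) Filter.atTop (nhds (F₀ x))) →
        Gn C G n F₀

theorem Coc.tF {G A K : Type} [Group G] [Group K] (κ : FinPair G A K) {n : ℕ}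
    {F : (ℕ → K) → ℝ} (hF : Loc n F) (ih : Coc n F) : Coc n (tF κ F) := by
  intro x
  obtain ⟨S, hS⟩ := tF_sup κ (n + 1) x
  have e1 : ∀ i ∈ Finset.range (n + 2), (-1 : ℝ) ^ i * Nov.tF κ F (fun j => x (dl i j)) =
      ∑ b ∈ S, ((-1 : ℝ) ^ i * F (fun j => tc κ b (x (dl i j))) -
        (-1 : ℝ) ^ i * F (fun j => td κ b (x (dl i j)))) := by
    intro i _
    rw [tF_eq_loc κ hF _ S, Finset.mul_sum]
    · apply Finset.sum_congr rfl
      intro b _
      rw [mul_sub]
    · intro b hb j hj
      apply hS b hb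
      unfold dl
      split_ifs <;> omega
  rw [Finset.sum_congr rfl e1, Finset.sum_comm]
  apply Finset.sum_eq_zero
  intro b _
  rw [Finset.sum_sub_distrib, ih (fun j => tc κ b (x j)), ih (fun j => td κ b (x j)), sub_zero]

theorem Gn.isCoc {C : (K : Type) → [Group K] → Prop} {G : Type} [Group G] {n : ℕ}
    {F : (ℕ → G) → ℝ} (h : Gn C G n F) : IsCoc n F := by
  induction h with
  | base _ hF => exact hF
  | @pull G H _ _ f n F _ ih =>
    refine ⟨?_, ?_, ?_⟩
    · intro g x
      have h := ih.1 (f g) (fun j => f (x j))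
      have e : (fun j => f (g * x j)) = fun j => f g * f (x j) := funext fun j => map_mul f _ _
      beta_reduce
      rw [e, h]
    · exact fun x y h => ih.2.1 _ _ fun j hj => by simp only [h j hj]
    · exact fun x => ih.2.2 fun j => f (x j)
  | trans κ _ ih => exact ⟨ih.1.tF κ, ih.2.1.tF κ, Coc.tF κ ih.2.1 ih.2.2⟩
  | @add G _ n F F' _ _ ih ih' =>
    refine ⟨?_, ?_, ?_⟩
    · intro g x; change _ + _ = _; rw [ih.1, ih'.1]
    · intro x y h; change _ + _ = _; rw [ih.2.1 x y h, ih'.2.1 x y h]
    · intro x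
      have e : ∀ i ∈ Finset.range (n + 2), (-1 : ℝ) ^ i *
          (F (fun j => x (dl i j)) + F' (fun j => x (dl i j))) =
          (-1 : ℝ) ^ i * F (fun j => x (dl i j)) + (-1 : ℝ) ^ i * F' (fun j => x (dl i j)) :=
        fun i _ => mul_add _ _ _
      rw [Finset.sum_congr rfl e, Finset.sum_add_distrib, ih.2.2, ih'.2.2, add_zero]
  | @smul G _ r n F _ ih =>
    refine ⟨?_, ?_, ?_⟩
    · intro g x; change r * _ = _; rw [ih.1]
    · intro x y h; change r * _ = _; rw [ih.2.1 x y h]
    · intro x
      have e : ∀ i ∈ Finset.range (n + 2), (-1 : ℝ) ^ i * (r * F (fun j => x (dl i j))) =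
          r * ((-1 : ℝ) ^ i * F (fun j => x (dl i j))) := fun i _ => by ring
      rw [Finset.sum_congr rfl e, ← Finset.mul_sum, ih.2.2, mul_zero]
  | @lim G _ n F F₀ _ hl ih =>
    refine ⟨?_, ?_, ?_⟩
    · intro g x
      refine tendsto_nhds_unique (hl (fun j => g * x j)) ?_
      simp only [(ih _).1 g x]
      exact hl x
    · intro x y h
      refine tendsto_nhds_unique (hl x) ?_
      simp only [(ih _).2.1 x y h]
      exact hl y
    · intro x
      have h1 : Filter.Tendsto (fun k => ∑ i ∈ Finset.range (n + 2),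
          (-1 : ℝ) ^ i * F k (fun j => x (dl i j))) Filter.atTop
          (nhds (∑ i ∈ Finset.range (n + 2), (-1 : ℝ) ^ i * F₀ (fun j => x (dl i j)))) :=
        tendsto_finsetSum _ fun i _ => (hl _).const_mul _
      refine tendsto_nhds_unique h1 ?_
      simp only [(ih _).2.2 x]
      exact tendsto_const_nhds

theorem Gn.of_eq {C : (K : Type) → [Group K] → Prop} {G : Type} [Group G] {n : ℕ}
    {F F' : (ℕ → G) → ℝ} (h : Gn C G n F) (e : F = F') : Gn C G n F' := e ▸ h

/-- The pair of cocycles with an auxiliary factor on the right. -/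
def prodPairR (L : Type) [Group L] {G A K : Type} [Group G] [Group K] (κ : FinPair G A K) :
    FinPair (G × L) A (K × L) where
  σ := κ.σ.comp (MonoidHom.fst G L)
  c g a := (κ.c g.1 a, g.2)
  d g a := (κ.d g.1 a, g.2)
  mul_c g h a := Prod.ext (κ.mul_c g.1 h.1 a) rfl
  mul_d g h a := Prod.ext (κ.mul_d g.1 h.1 a) rfl
  fin g := (κ.fin g.1).subset fun _ ha h => ha (Prod.ext h rfl)

theorem tc_prodPairR (L : Type) [Group L] {G A K : Type} [Group G] [Group K] (κ : FinPair G A K)
    (b : A) (x : G × L) : tc (prodPairR L κ) b x = (tc κ b x.1, x.2) := rfl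

theorem td_prodPairR (L : Type) [Group L] {G A K : Type} [Group G] [Group K] (κ : FinPair G A K)
    (b : A) (x : G × L) : td (prodPairR L κ) b x = (td κ b x.1, x.2) := rfl

section Mul

variable {C : (K : Type) → [Group K] → Prop}
  (hC : ∀ (K K' : Type) [Group K] [Group K'], C K → C K' → C (K × K'))

include hC

theorem Gn.crs_base {K : Type} [Group K] (hK : C K) {n : ℕ} {F : (ℕ → K) → ℝ} (hF : IsCoc n F)
    {H : Type} [Group H] {m : ℕ} {F' : (ℕ → H) → ℝ} (h : Gn C H m F') :
    Gn C (K × H) (n + m) (crs n F F') := by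
  induction h with
  | @base K' _ hK' m F' hF' => exact Gn.base (hC K K' hK hK') (hF.crs hF')
  | @pull G H _ _ f m F' _ ih =>
    exact (ih.pull (MonoidHom.prodMap (MonoidHom.id K) f)).of_eq rfl
  | @trans G A H _ _ κ m F' _ ih =>
    refine (ih.trans (prodPair K κ)).of_eq ?_
    funext x
    unfold crs tF
    rw [← smul_eq_mul, smul_finsum]
    apply finsum_congr
    intro b
    simp only [tc_prodPair, td_prodPair, smul_eq_mul]
    ring
  | @add H _ m F' F'' _ _ ih ih' =>
    refine (ih.add ih').of_eq ?_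
    funext x
    unfold crs
    ring
  | @smul H _ r m F' _ ih =>
    refine (ih.smul r).of_eq ?_
    funext x
    unfold crs
    ring
  | lim _ hl ih =>
    refine Gn.lim ih fun x => ?_
    unfold crs
    exact (hl _).const_mul _

theorem Gn.crs {G H : Type} [Group G] [Group H] {n m : ℕ} {F : (ℕ → G) → ℝ} {F' : (ℕ → H) → ℝ}
    (h : Gn C G n F) (h' : Gn C H m F') : Gn C (G × H) (n + m) (crs n F F') := by
  induction h with
  | base hK hF => exact Gn.crs_base hC hK hF h'
  | @pull G G' _ _ f n F _ ih =>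
    exact (ih.pull (MonoidHom.prodMap f (MonoidHom.id H))).of_eq rfl
  | @trans G A K _ _ κ n F _ ih =>
    refine (ih.trans (prodPairR H κ)).of_eq ?_
    funext x
    unfold Nov.crs tF
    rw [mul_comm, ← smul_eq_mul, smul_finsum]
    apply finsum_congr
    intro b
    simp only [tc_prodPairR, td_prodPairR, smul_eq_mul]
    ring
  | @add G _ n F F₁ _ _ ih ih' =>
    refine (ih.add ih').of_eq ?_
    funext x
    unfold Nov.crs
    ring
  | @smul G _ r n F _ ih =>
    refine (ih.smul r).of_eq ?_
    funext x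
    unfold Nov.crs
    ring
  | lim _ hl ih =>
    refine Gn.lim ih fun x => ?_
    unfold Nov.crs
    exact (hl _).mul_const _

theorem Gn.cup {G : Type} [Group G] {n m : ℕ} {F F' : (ℕ → G) → ℝ}
    (h : Gn C G n F) (h' : Gn C G m F') : Gn C G (n + m) (cup n F F') :=
  ((h.crs hC h').pull (MonoidHom.prod (MonoidHom.id G) (MonoidHom.id G))).of_eq rfl

theorem Gen.gn {G : Type} [Group G] {n : ℕ} {F : (ℕ → G) → ℝ} (h : Gen C G n F) : Gn C G n F := by
  induction h with
  | base hK hF => exact Gn.base hK hF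
  | pull f _ ih => exact ih.pull f
  | trans κ _ ih => exact ih.trans κ
  | cup _ _ ih ih' => exact ih.cup hC ih'
  | add _ _ ih ih' => exact ih.add ih'
  | smul r _ ih => exact ih.smul r
  | lim _ hl ih => exact Gn.lim ih hl

end Mul

section Main

variable {B : Type} {d : B → ℕ} {E : GrpCat.{0} ⥤ ModuleCat.{0} ℚ} (α : ∀ b : B, hq (d b) ⟶ E)

variable {α}

theorem kill_of_inj {K : Type} [Group K] (hK : ∀ x : HB d K, tb d α K x = 0 → x = 0) {n : ℕ}
    {F : (ℕ → K) → ℝ} (hF : IsCoc n F) : Kill α K n F := by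
  intro x hx b hb z hz
  subst hb
  have h0 := hK x hx
  rw [h0] at hz
  have h1 : z ∈ LinearMap.range (dd (1 : Representation ℚ K ℚ) (d b)) :=
    hz.eq_zero_iff.mp rfl
  obtain ⟨w, rfl⟩ := h1
  exact ev_dd hF.1 hF.2.1 hF.2.2 w

theorem Gn.kill (hE : HasPT E) {C : (K : Type) → [Group K] → Prop}
    (hα : ∀ (K : Type) [Group K], C K → ∀ x : HB d K, tb d α K x = 0 → x = 0)
    {G : Type} [Group G] {n : ℕ} {F : (ℕ → G) → ℝ} (h : Gn C G n F) : Kill α G n F := by
  induction h with
  | @base K _ hK n F hF => exact kill_of_inj (hα K hK) hF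
  | pull f _ ih => exact ih.pull f
  | trans κ h ih => exact ih.trans hE κ h.isCoc.1
  | add _ _ ih ih' => exact ih.add ih'
  | smul r _ ih => exact ih.smul r
  | @lim G _ n F F₀ _ hl ih =>
    intro x hx b hb z hz
    have h1 : Filter.Tendsto (fun k => ev (F k) z) Filter.atTop (nhds (ev F₀ z)) := by
      simp only [ev_eq_sum]
      exact tendsto_finsetSum _ fun g _ => (hl _).const_mul _
    refine tendsto_nhds_unique h1 ?_
    simp only [ih _ x hx b hb z hz]
    exact tendsto_const_nhds

theorem Gen.kill (hE : HasPT E) {C : (K : Type) → [Group K] → Prop}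
    (hC : ∀ (K K' : Type) [Group K] [Group K'], C K → C K' → C (K × K'))
    (hα : ∀ (K : Type) [Group K], C K → ∀ x : HB d K, tb d α K x = 0 → x = 0)
    {G : Type} [Group G] {n : ℕ} {F : (ℕ → G) → ℝ} (h : Gen C G n F) : Kill α G n F :=
  (h.gn hC).kill hE hα

end Main

end Pool.Agent.X175.Nov
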