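import Pool.Agent.X175.Nov.Cont

/-!
Torsion-free commutative groups.
-/

namespace Pool.Agent.X175.Nov

open Pool.Agent.Y483 Pool.Agent.Y110.KW Pool.Agent.Y75.MQ Pool.Agent.Y483.PW Finsupp CategoryTheory
  DirectSum

theorem tfa_prod (K K' : Type) [Group K] [Group K'] (h : TFA K) (h' : TFA K') : TFA (K × K') :=
  ⟨fun a b => Prod.ext (h.1 a.1 b.1) (h'.1 a.2 b.2), fun g n hn hg =>
    Prod.ext (h.2 g.1 n hn (congrArg Prod.fst hg)) (h'.2 g.2 n hn (congrArg Prod.snd hg))⟩

theorem tfa_sub {K : Type} [Group K] (h : TFA K) (H : Subgroup K) : TFA H :=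
  ⟨fun a b => Subtype.ext (h.1 a.1 b.1), fun g n hn hg =>
    Subtype.ext (h.2 g.1 n hn (congrArg Subtype.val hg))⟩

theorem tfa_equiv_comm (H : Type) [CommGroup H] (hf : Group.FG H)
    (ht : ∀ (g : H) (n : ℕ), 0 < n → g ^ n = 1 → g = 1) : ∃ m, Nonempty (H ≃* Zm m) := by
  have h1 : AddGroup.FG (Additive H) := by
    rw [← GroupFG.iff_add_fg]
    exact hf
  have : Module.Finite ℤ (Additive H) := Module.Finite.iff_addGroup_fg.mpr h1
  have : Module.IsTorsionFree ℤ (Additive H) := by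
    apply Module.IsTorsionFree.of_smul_eq_zero
    intro r x hx
    by_contra hcon
    rw [not_or] at hcon
    obtain ⟨hr, hx0⟩ := hcon
    apply hx0
    have h2 : (x.toMul) ^ r = 1 := hx
    have h3 : (x.toMul) ^ (r.natAbs) = 1 := by
      rcases Int.natAbs_eq r with h | h
      · rw [h, zpow_natCast] at h2
        exact h2
      · rw [h, zpow_neg, inv_eq_one, zpow_natCast] at h2
        exact h2
    exact ht _ _ (Int.natAbs_pos.mpr hr) h3
  obtain ⟨m, b⟩ := Module.basisOfFiniteTypeTorsionFree' (R := ℤ) (M := Additive H)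
  exact ⟨m, ⟨(MulEquiv.refl H : H ≃* Multiplicative (Additive H)).trans
    (AddEquiv.toMultiplicative b.equivFun.toAddEquiv)⟩⟩

theorem tfa_equiv {H : Type} [i : Group H] (hf : Group.FG H) (h : TFA H) :
    ∃ m, Nonempty (H ≃* Zm m) := by
  let c : CommGroup H := { i with mul_comm := h.1 }
  exact @tfa_equiv_comm H c hf h.2

section

variable {B : Type} {d : B → ℕ} {E : GrpCat.{0} ⥤ ModuleCat.{0} ℚ} {α : ∀ b : B, hq (d b) ⟶ E}

/-- If the total map is injective for the groups `ℤ^m`, it is injective for all torsion-free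
commutative groups. -/
theorem inj_tfa (hE : Ctn E) (hα : InjZ α) {K : Type} [Group K] (hK : TFA K) (x : HB d K)
    (hx : tb d α K x = 0) : x = 0 := by
  refine inj_of_fg d α hE (fun H hH x hx => ?_) x hx
  obtain ⟨m, ⟨e⟩⟩ := tfa_equiv ((Group.fg_iff_subgroup_fg H).mpr hH) (tfa_sub hK H)
  have h1 := hα m (hbMap d e.toMonoidHom x) (tb_map d α _ hx)
  have h2 : hbMap d e.symm.toMonoidHom (hbMap d e.toMonoidHom x) = x := by
    rw [← hbMap_comp]
    have : e.symm.toMonoidHom.comp e.toMonoidHom = MonoidHom.id H := by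
      ext a
      simp
    rw [this, hbMap_id]
  rw [← h2, h1, map_zero]

/-- Injectivity of the total map does not change under isomorphisms. -/
theorem inj_iso {H K : Type} [Group H] [Group K] (e : H ≃* K)
    (h : ∀ x : HB d K, tb d α K x = 0 → x = 0) (x : HB d H) (hx : tb d α H x = 0) : x = 0 := by
  have h1 := h (hbMap d e.toMonoidHom x) (tb_map d α _ hx)
  have h2 : hbMap d e.symm.toMonoidHom (hbMap d e.toMonoidHom x) = x := by
    rw [← hbMap_comp]
    have : e.symm.toMonoidHom.comp e.toMonoidHom = MonoidHom.id H := by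
      ext a
      simp
    rw [this, hbMap_id]
  rw [← h2, h1, map_zero]

/-- If the total map is injective for the subgroups in a family such that each of them and each
finite set are contained in one of them, it is injective. -/
theorem inj_of_dir (hE : Ctn E) {K : Type} [Group K] (P : Subgroup K → Prop) (h0 : ∃ H, P H)
    (hP : ∀ H, P H → ∀ D : Finset K, ∃ H', H ≤ H' ∧ P H' ∧ (D : Set K) ⊆ H')
    (h : ∀ H : Subgroup K, P H → ∀ x : HB d H, tb d α H x = 0 → x = 0) (x : HB d K)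
    (hx : tb d α K x = 0) : x = 0 := by
  obtain ⟨D, hD⟩ := hb_sub d x
  obtain ⟨H₀, hH₀⟩ := h0
  obtain ⟨H, -, hH, hDH⟩ := hP H₀ hH₀ D
  obtain ⟨y, rfl⟩ := hD H hDH
  rw [← tb_nat] at hx
  obtain ⟨D', hD'⟩ := hE K H (tb d α _ y) hx
  obtain ⟨H', hle, hH', hDH'⟩ := hP H hH D'
  have h1 := hD' H' hle hDH'
  rw [tb_nat] at h1
  have h2 := h _ hH' _ h1
  have h3 : H.subtype = H'.subtype.comp (Subgroup.inclusion hle) := rfl
  rw [h3, hbMap_comp, h2, map_zero]

/-- The isomorphism `(K × A) × (K' × A') ≅ (K × K') × (A × A')`. -/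
def mix (K A K' A' : Type) [Group K] [Group A] [Group K'] [Group A'] :
    (K × A) × (K' × A') ≃* (K × K') × (A × A') where
  toFun x := ((x.1.1, x.2.1), (x.1.2, x.2.2))
  invFun x := ((x.1.1, x.2.1), (x.1.2, x.2.2))
  left_inv _ := rfl
  right_inv _ := rfl
  map_mul' _ _ := rfl

theorem cx_prod {C : (K : Type) → [Group K] → Prop}
    (hC : ∀ (K K' : Type) [Group K] [Group K'], C K → C K' → C (K × K')) (H H' : Type) [Group H]
    [Group H'] (h : Cx C H) (h' : Cx C H') : Cx C (H × H') := by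
  obtain ⟨K, A, _, _, hK, hA, ⟨e⟩⟩ := h
  obtain ⟨K', A', _, _, hK', hA', ⟨e'⟩⟩ := h'
  exact ⟨K × K', A × A', inferInstance, inferInstance, hC K K' hK hK', tfa_prod A A' hA hA',
    ⟨(e.prodCongr e').trans (mix K A K' A')⟩⟩

/-- The condition on the class `C`: the total map is injective for the groups `K × ℤ^m`. -/
def InjC (α : ∀ b : B, hq (d b) ⟶ E) (C : (K : Type) → [Group K] → Prop) : Prop :=
  ∀ (K : Type) [Group K], C K → ∀ (m : ℕ) (x : HB d (K × Zm m)), tb d α (K × Zm m) x = 0 → x = 0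

theorem inj_cx (hE : Ctn E) {C : (K : Type) → [Group K] → Prop} (hα : InjC α C) (H : Type)
    [Group H] (h : Cx C H) (x : HB d H) (hx : tb d α H x = 0) : x = 0 := by
  classical
  obtain ⟨K, A, _, _, hK, hA, ⟨e⟩⟩ := h
  refine inj_iso e (fun x hx => ?_) x hx
  refine inj_of_dir hE (fun H => ∃ A' : Subgroup A, A'.FG ∧ H = Subgroup.prod ⊤ A')
    ⟨_, ⊥, ⟨∅, by simp⟩, rfl⟩ ?_ ?_ x hx
  · rintro H ⟨A', hA', rfl⟩ D
    refine ⟨Subgroup.prod ⊤ (A' ⊔ Subgroup.closure ((D.image Prod.snd : Finset A) : Set A)),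
      Subgroup.prod_mono le_rfl le_sup_left, ⟨_, hA'.sup ⟨_, rfl⟩, rfl⟩, ?_⟩
    intro p hp
    refine ⟨Subgroup.mem_top _, ?_⟩
    apply Subgroup.mem_sup_right
    apply Subgroup.subset_closure
    rw [Finset.mem_coe, Finset.mem_image]
    exact ⟨p, hp, rfl⟩
  · rintro H ⟨A', hA', rfl⟩ y hy
    obtain ⟨m, ⟨e'⟩⟩ := tfa_equiv ((Group.fg_iff_subgroup_fg A').mpr hA') (tfa_sub hA A')
    exact inj_iso ((Subgroup.prodEquiv ⊤ A').trans
      ((Subgroup.topEquiv : (⊤ : Subgroup K) ≃* K).prodCongr e')) (hα K hK m) y hy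

end

end Pool.Agent.X175.Nov
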