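import Pool.Agent.Y483.Homotopy
import Pool.Agent.X175.Nov.Def

/-!
The transfer on chains along a pair of cocycles which agree up to finite sets.
-/

namespace Pool.Agent.X175.Nov

open Pool.Agent.Y483 Finsupp

section

variable {G A K : Type} [Group G] [Group K] (κ : FinPair G A K)

theorem tc_mul (b : A) (g x : G) :
    tc κ b (g * x) = κ.c g ((κ.σ g)⁻¹ b) * tc κ ((κ.σ g)⁻¹ b) x := by
  unfold tc
  rw [κ.mul_c, map_mul, mul_inv_rev, Equiv.Perm.mul_apply]
  congr 2
  exact (κ.σ x).apply_symm_apply _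

theorem td_mul (b : A) (g x : G) :
    td κ b (g * x) = κ.d g ((κ.σ g)⁻¹ b) * td κ ((κ.σ g)⁻¹ b) x := by
  unfold td
  rw [κ.mul_d, map_mul, mul_inv_rev, Equiv.Perm.mul_apply]
  congr 2
  exact (κ.σ x).apply_symm_apply _

theorem t_fin (x : G) : {b | tc κ b x ≠ td κ b x}.Finite :=
  (κ.fin x).preimage (f := fun b => (κ.σ x)⁻¹ b) (Equiv.injective _).injOn

/-- The set of the `b` where the two images of the tuple `x` can differ. -/
def tsup {n : ℕ} (x : Fin n → G) : Set A := {b | ∃ j, tc κ b (x j) ≠ td κ b (x j)}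

theorem tsup_fin {n : ℕ} (x : Fin n → G) : (tsup κ x).Finite := by
  have h : tsup κ x = ⋃ j, {b | tc κ b (x j) ≠ td κ b (x j)} := by
    ext b
    simp [tsup]
  rw [h]
  exact Set.finite_iUnion fun j => t_fin κ (x j)

theorem tsup_eq {n : ℕ} {x : Fin n → G} {b : A} (hb : b ∉ tsup κ x) :
    tc κ b ∘ x = td κ b ∘ x := by
  funext j
  by_contra h
  exact hb ⟨j, h⟩

/-- The difference of the two images of a tuple. -/
noncomputable def dv (n : ℕ) (b : A) (x : Fin n → G) : T n K ℚ :=
  single (tc κ b ∘ x) 1 - single (td κ b ∘ x) 1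

theorem dv_zero (n : ℕ) (b : A) (x : Fin n → G) (hb : b ∉ tsup κ x) : dv κ n b x = 0 := by
  unfold dv
  rw [tsup_eq κ hb, sub_self]

/-- The image of a tuple. -/
noncomputable def uv (n : ℕ) (x : Fin n → G) : T n K ℚ :=
  ∑ b ∈ (tsup_fin κ x).toFinset, dv κ n b x

theorem uv_eq (n : ℕ) (x : Fin n → G) (S : Finset A) (hS : tsup κ x ⊆ S) :
    uv κ n x = ∑ b ∈ S, dv κ n b x := by
  unfold uv
  apply Finset.sum_subset
  · intro b hb
    exact hS ((Set.Finite.mem_toFinset _).mp hb)
  · intro b _ hb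
    exact dv_zero κ n b x fun h => hb ((Set.Finite.mem_toFinset _).mpr h)

/-- The transfer on homogeneous chains. -/
noncomputable def U (n : ℕ) : T n G ℚ →ₗ[ℚ] T n K ℚ :=
  lsum ℚ fun x => LinearMap.smulRight LinearMap.id (uv κ n x)

theorem U_single (n : ℕ) (x : Fin n → G) (m : ℚ) : U κ n (single x m) = m • uv κ n x := by
  simp [U]

theorem T_ext1 {n : ℕ} {X V : Type*} [AddCommGroup V] [Module ℚ V] {f g : T n X ℚ →ₗ[ℚ] V}
    (h : ∀ x, f (single x 1) = g (single x 1)) : f = g := by
  apply T_ext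
  intro x m
  have e : (single x m : T n X ℚ) = m • single x 1 := by rw [smul_single, smul_eq_mul, mul_one]
  rw [e, map_smul, map_smul, h]

theorem tsup_comp {n k : ℕ} (x : Fin n → G) (f : Fin k → Fin n) :
    tsup κ (x ∘ f) ⊆ tsup κ x := fun _ ⟨j, hj⟩ => ⟨f j, hj⟩

theorem bd_U (n : ℕ) (z : T (n + 1) G ℚ) : bd n (U κ (n + 1) z) = U κ n (bd n z) := by
  have h : (bd n) ∘ₗ (U κ (n + 1)) = (U κ n) ∘ₗ (bd n) := by
    apply T_ext1
    intro x
    have hS : tsup κ x ⊆ ((tsup_fin κ x).toFinset : Set A) := by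
      intro b hb
      exact (Set.Finite.mem_toFinset _).mpr hb
    rw [LinearMap.comp_apply, LinearMap.comp_apply, U_single, one_smul, bd_single, map_sum,
      uv_eq κ (n + 1) x _ hS, map_sum]
    have h1 : ∀ i : Fin (n + 1), U κ n (((-1 : ℚ) ^ (i : ℕ)) • single (x ∘ i.succAbove) 1) =
        ∑ b ∈ (tsup_fin κ x).toFinset, ((-1 : ℚ) ^ (i : ℕ)) • dv κ n b (x ∘ i.succAbove) := by
      intro i
      rw [map_smul, U_single, one_smul,
        uv_eq κ n (x ∘ i.succAbove) _ ((tsup_comp κ x i.succAbove).trans hS), Finset.smul_sum]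
    rw [Finset.sum_congr rfl fun i _ => h1 i, Finset.sum_comm]
    apply Finset.sum_congr rfl
    intro b _
    unfold dv
    rw [map_sub, bd_single, bd_single, ← Finset.sum_sub_distrib]
    apply Finset.sum_congr rfl
    intro i _
    rw [smul_sub]
    rfl
  exact DFunLike.congr_fun h z

theorem pp_smul (L : Type*) [Group L] (n : ℕ) (x : Fin (n + 1) → L) (g : L) (m : ℚ) :
    pp (1 : Representation ℚ L ℚ) n (single (fun j => g * x j) m) =
      pp (1 : Representation ℚ L ℚ) n (single x m) := by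
  have h := pp_tr (1 : Representation ℚ L ℚ) n g (single x m)
  unfold tr at h
  rw [mp_single] at h
  exact h

theorem pp_U_tr (n : ℕ) (g : G) (z : T (n + 1) G ℚ) :
    pp (1 : Representation ℚ K ℚ) n (U κ (n + 1) (tr (1 : Representation ℚ G ℚ) (n + 1) g z)) =
      pp (1 : Representation ℚ K ℚ) n (U κ (n + 1) z) := by
  classical
  have h : (pp (1 : Representation ℚ K ℚ) n) ∘ₗ (U κ (n + 1)) ∘ₗ
      (tr (1 : Representation ℚ G ℚ) (n + 1) g) =
        (pp (1 : Representation ℚ K ℚ) n) ∘ₗ (U κ (n + 1)) := by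
    apply T_ext1
    intro x
    rw [LinearMap.comp_apply, LinearMap.comp_apply, LinearMap.comp_apply]
    unfold tr
    rw [mp_single]
    have e0 : ((1 : Representation ℚ G ℚ) g) 1 = (1 : ℚ) := rfl
    rw [e0, U_single, U_single, one_smul, one_smul]
    set y : Fin (n + 1) → G := (fun x => g * x) ∘ x with hy
    set S : Finset A := (tsup_fin κ x).toFinset ∪
      (tsup_fin κ y).toFinset.image (fun b => (κ.σ g)⁻¹ b) with hSdef
    have hS : tsup κ x ⊆ (S : Set A) := by
      intro b hb
      rw [hSdef, Finset.coe_union]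
      exact Or.inl ((Set.Finite.mem_toFinset _).mpr hb)
    set S' : Finset A := S.map (κ.σ g).toEmbedding with hS'def
    have hS' : tsup κ y ⊆ (S' : Set A) := by
      intro b hb
      rw [hS'def, Finset.coe_map]
      refine ⟨(κ.σ g)⁻¹ b, ?_, (κ.σ g).apply_symm_apply b⟩
      rw [hSdef, Finset.coe_union]
      right
      rw [Finset.coe_image]
      exact ⟨b, (Set.Finite.mem_toFinset _).mpr hb, rfl⟩
    rw [uv_eq κ (n + 1) x S hS, uv_eq κ (n + 1) y S' hS', map_sum, map_sum, hS'def,
      Finset.sum_map]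
    apply Finset.sum_congr rfl
    intro b _
    have e1 : (κ.σ g)⁻¹ ((κ.σ g).toEmbedding b) = b := (κ.σ g).symm_apply_apply b
    unfold dv
    rw [map_sub, map_sub]
    congr 1
    · have e2 : tc κ ((κ.σ g).toEmbedding b) ∘ y =
          fun j => κ.c g b * (tc κ b ∘ x) j := by
        funext j
        rw [hy, Function.comp_apply, Function.comp_apply, tc_mul, e1]
        rfl
      rw [e2]
      exact pp_smul K n _ _ _
    · have e2 : td κ ((κ.σ g).toEmbedding b) ∘ y =
          fun j => κ.d g b * (td κ b ∘ x) j := by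
        funext j
        rw [hy, Function.comp_apply, Function.comp_apply, td_mul, e1]
        rfl
      rw [e2]
      exact pp_smul K n _ _ _
  exact DFunLike.congr_fun h z

/-- The transfer on inhomogeneous chains. -/
noncomputable def trT (n : ℕ) : T n G ℚ →ₗ[ℚ] T n K ℚ :=
  (pp (1 : Representation ℚ K ℚ) n) ∘ₗ (U κ (n + 1)) ∘ₗ (sg n)

theorem trT_pp (n : ℕ) (z : T (n + 1) G ℚ) :
    trT κ n (pp (1 : Representation ℚ G ℚ) n z) =
      pp (1 : Representation ℚ K ℚ) n (U κ (n + 1) z) := by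
  have h := factor (1 : Representation ℚ G ℚ) n
    ((pp (1 : Representation ℚ K ℚ) n) ∘ₗ (U κ (n + 1))) (fun g w => pp_U_tr κ n g w) z
  exact h.symm

theorem dd_trT (n : ℕ) (z : T (n + 1) G ℚ) :
    dd (1 : Representation ℚ K ℚ) n (trT κ (n + 1) z) =
      trT κ n (dd (1 : Representation ℚ G ℚ) n z) := by
  have h1 : dd (1 : Representation ℚ K ℚ) n (trT κ (n + 1) z) =
      pp (1 : Representation ℚ K ℚ) n (bd (n + 1) (U κ (n + 2) (sg (n + 1) z))) := by
    rw [pp_bd]
    rfl
  rw [h1, bd_U, ← trT_pp, pp_bd, pp_sg]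

theorem U_mp {L : Type} [Group L] (κ' : FinPair L A K) (f : G →* L)
    (hc : ∀ b x, tc κ b x = tc κ' b (f x)) (hd : ∀ b x, td κ b x = td κ' b (f x)) (n : ℕ)
    (z : T n G ℚ) : U κ n z = U κ' n (mp n f LinearMap.id z) := by
  have h : U κ n = (U κ' n) ∘ₗ (mp n f LinearMap.id) := by
    apply T_ext1
    intro x
    rw [LinearMap.comp_apply, mp_single, U_single, LinearMap.id_apply, U_single]
    have e : tsup κ x = tsup κ' (f ∘ x) := by
      ext b
      simp only [tsup, hc, hd, Function.comp_apply]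
    have e2 : tsup κ' (f ∘ x) ⊆ ((tsup_fin κ x).toFinset : Set A) := by
      rw [Set.Finite.coe_toFinset, e]
    rw [uv_eq κ' n (f ∘ x) _ e2]
    unfold uv
    congr 1
    apply Finset.sum_congr rfl
    intro b _
    unfold dv
    have e3 : tc κ b ∘ x = tc κ' b ∘ (f ∘ x) := funext fun j => hc b (x j)
    have e4 : td κ b ∘ x = td κ' b ∘ (f ∘ x) := funext fun j => hd b (x j)
    rw [e3, e4]
  exact DFunLike.congr_fun h z

theorem sg_mp {L : Type} [Group L] (f : G →* L) (n : ℕ) (z : T n G ℚ) :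
    mp (n + 1) f LinearMap.id (sg n z) = sg n (mp n f LinearMap.id z) := by
  have h : (mp (n + 1) f (LinearMap.id : ℚ →ₗ[ℚ] ℚ)) ∘ₗ (sg n) =
      (sg n) ∘ₗ (mp n f LinearMap.id) := by
    apply T_ext
    intro x m
    rw [LinearMap.comp_apply, LinearMap.comp_apply, sg_single, mp_single, mp_single, sg_single]
    congr 1
    funext j
    induction j using Fin.induction with
    | zero => simp
    | succ i ih =>
      rw [Function.comp_apply] at *
      rw [Fin.partialProd_succ, Fin.partialProd_succ, map_mul, ih]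
      rfl
  exact DFunLike.congr_fun h z

/-- Naturality of the transfer in the source. -/
theorem trT_mp {L : Type} [Group L] (κ' : FinPair L A K) (f : G →* L)
    (hc : ∀ b x, tc κ b x = tc κ' b (f x)) (hd : ∀ b x, td κ b x = td κ' b (f x)) (n : ℕ)
    (z : T n G ℚ) : trT κ n z = trT κ' n (mp n f LinearMap.id z) := by
  unfold trT
  rw [LinearMap.comp_apply, LinearMap.comp_apply, LinearMap.comp_apply, LinearMap.comp_apply,
    U_mp κ κ' f hc hd, sg_mp]

theorem pp_mp_sg {L : Type} [Group L] (f : G →* L) (n : ℕ) (x : Fin n → G) (m : ℚ) :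
    pp (1 : Representation ℚ L ℚ) n (single (f ∘ Fin.partialProd x) m) = single (f ∘ x) m := by
  rw [pp_single]
  congr 1
  funext i
  simp only [Function.comp_apply]
  rw [← map_inv, ← map_mul, Fin.partialProd_right_inv]

/-- The transfer of a chain of a group which fixes the elements of a finite set `Y`. -/
theorem trT_fix {L : Type} [Group L] (f : L →* G) (Y : Finset A) (lc ld : A → (L →* K))
    (hY : ∀ a ∈ Y, ∀ g, κ.σ (f g) a = a ∧ lc a g = κ.c (f g) a ∧ ld a g = κ.d (f g) a)
    (hY' : ∀ a ∉ Y, ∀ g, κ.c (f g) a = κ.d (f g) a) (n : ℕ) (z : T n L ℚ) :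
    trT κ n (mp n f LinearMap.id z) =
      ∑ a ∈ Y, (mp n (lc a) LinearMap.id z - mp n (ld a) LinearMap.id z) := by
  have h : (trT κ n) ∘ₗ (mp n f LinearMap.id) =
      ∑ a ∈ Y, (mp n (lc a) LinearMap.id - mp n (ld a) LinearMap.id) := by
    apply T_ext1
    intro x
    rw [LinearMap.comp_apply, LinearMap.sum_apply]
    have e1 : trT κ n (mp n f LinearMap.id (single x 1)) =
        pp (1 : Representation ℚ K ℚ) n (uv κ (n + 1) (f ∘ Fin.partialProd x)) := by
      unfold trT
      rw [LinearMap.comp_apply, LinearMap.comp_apply, ← sg_mp, sg_single, mp_single, U_single,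
        LinearMap.id_apply, one_smul]
    have hfix : ∀ b ∈ Y, ∀ g : L, (κ.σ (f g))⁻¹ b = b := by
      intro b hb g
      have h1 := (hY b hb g).1
      conv_lhs => rw [← h1]
      exact (κ.σ (f g)).symm_apply_apply b
    have hsub : tsup κ (f ∘ Fin.partialProd x) ⊆ (Y : Set A) := by
      rintro b ⟨j, hj⟩
      by_contra hb
      apply hj
      have hb2 : (κ.σ (f (Fin.partialProd x j)))⁻¹ b ∉ Y := by
        intro h2
        apply hb
        have h3 := (hY _ h2 (Fin.partialProd x j)).1
        have h4 : (κ.σ (f (Fin.partialProd x j))) ((κ.σ (f (Fin.partialProd x j)))⁻¹ b) = b :=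
          (κ.σ (f (Fin.partialProd x j))).apply_symm_apply b
        rw [h4] at h3
        rw [← h3] at h2
        exact h2
      exact hY' _ hb2 _
    rw [e1, uv_eq κ (n + 1) _ Y hsub, map_sum]
    apply Finset.sum_congr rfl
    intro b hb
    unfold dv
    rw [map_sub, LinearMap.sub_apply, mp_single, mp_single, LinearMap.id_apply]
    have e2 : tc κ b ∘ (f ∘ Fin.partialProd x) = lc b ∘ Fin.partialProd x := by
      funext j
      simp only [Function.comp_apply, tc]
      rw [hfix b hb, (hY b hb _).2.1]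
    have e3 : td κ b ∘ (f ∘ Fin.partialProd x) = ld b ∘ Fin.partialProd x := by
      funext j
      simp only [Function.comp_apply, td]
      rw [hfix b hb, (hY b hb _).2.2]
    rw [e2, e3, pp_mp_sg, pp_mp_sg]
  have h2 := DFunLike.congr_fun h z
  rw [LinearMap.comp_apply, LinearMap.sum_apply] at h2
  exact h2

end

end Pool.Agent.X175.Nov
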