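import Pool.Agent.X175.Nov.Ev

/-!
The cochains generated by the degree one classes under products, pullbacks and transfers.
-/

namespace Pool.Agent.X175.Nov

open Pool.Agent.Y483 Pool.Agent.Y110.KW Pool.Agent.Y75.MQ Pool.Agent.Y483.PW Finsupp CategoryTheory
  DirectSum

/-- The class of the cochains obtained from the constant function `1` by the products with
homomorphisms to `ℤ`, by pullbacks along homomorphisms, by the transfers along pairs of cocycles
and by linear combinations. -/
inductive Cl : (G : Type) → [Group G] → ℕ → ((ℕ → G) → ℝ) → Prop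
  | one (G : Type) [Group G] : Cl G 0 (fun _ => 1)
  | lin {G : Type} [Group G] {n : ℕ} {F : (ℕ → G) → ℝ} (l : G →* Multiplicative ℤ) :
      Cl G n F → Cl G (n + 1) (fun x =>
        (((l (x 1)).toAdd : ℝ) - ((l (x 0)).toAdd : ℝ)) * F (fun j => x (j + 1)))
  | pull {G H : Type} [Group G] [Group H] {n : ℕ} {F : (ℕ → H) → ℝ} (f : G →* H) :
      Cl H n F → Cl G n (fun x => F fun j => f (x j))
  | trans {G A K : Type} [Group G] [Group K] {n : ℕ} {F : (ℕ → K) → ℝ} (κ : FinPair G A K) :
      Cl K n F → Cl G n (tF κ F)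
  | add {G : Type} [Group G] {n : ℕ} {F F' : (ℕ → G) → ℝ} :
      Cl G n F → Cl G n F' → Cl G n (fun x => F x + F' x)
  | smul {G : Type} [Group G] {n : ℕ} {F : (ℕ → G) → ℝ} (r : ℝ) :
      Cl G n F → Cl G n (fun x => r * F x)

theorem Cl.li {G : Type} [Group G] {n : ℕ} {F : (ℕ → G) → ℝ} (h : Cl G n F) : LI F := by
  induction h with
  | one => exact fun _ _ => rfl
  | lin l _ ih =>
    intro g x
    have h := ih g (fun j => x (j + 1))
    change (((l (g * x 1)).toAdd : ℝ) - ((l (g * x 0)).toAdd : ℝ)) * _ = _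
    rw [h, map_mul l g (x 1), map_mul l g (x 0), toAdd_mul, toAdd_mul]
    push_cast
    ring
  | pull f _ ih =>
    intro g x
    have h := ih (f g) (fun j => f (x j))
    have e : (fun j => f (g * x j)) = fun j => f g * f (x j) := funext fun j => map_mul f _ _
    beta_reduce
    rw [e, h]
  | trans κ _ ih => exact ih.tF κ
  | add _ _ ih ih' => intro g x; change _ + _ = _; rw [ih, ih']
  | smul r _ ih => intro g x; change r * _ = _; rw [ih]

theorem Cl.loc {G : Type} [Group G] {n : ℕ} {F : (ℕ → G) → ℝ} (h : Cl G n F) : Loc n F := by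
  induction h with
  | one => exact fun _ _ _ => rfl
  | lin l _ ih =>
    intro x y h
    change (((l (x 1)).toAdd : ℝ) - ((l (x 0)).toAdd : ℝ)) * _ = _
    rw [h 0 (by omega), h 1 (by omega), ih (fun j => x (j + 1)) (fun j => y (j + 1)) fun j hj =>
      h (j + 1) (by omega)]
  | pull f _ ih => exact fun x y h => ih _ _ fun j hj => by simp only [h j hj]
  | trans κ _ ih => exact ih.tF κ
  | add _ _ ih ih' => intro x y h; change _ + _ = _; rw [ih x y h, ih' x y h]
  | smul r _ ih => intro x y h; change r * _ = _; rw [ih x y h]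

theorem dl_zero (j : ℕ) : dl 0 j = j + 1 := by simp [dl]

theorem dl_succ (i j : ℕ) : dl (i + 1) (j + 1) = dl i j + 1 := by
  unfold dl
  split_ifs <;> omega

theorem Cl.coc {G : Type} [Group G] {n : ℕ} {F : (ℕ → G) → ℝ} (h : Cl G n F) : Coc n F := by
  induction h with
  | one =>
    intro x
    simp [Finset.sum_range_succ]
  | @lin G _ n F l _ ih =>
    intro x
    have h := ih (fun j => x (j + 1))
    rw [Finset.sum_range_succ']
    have e1 : ∀ i, (-1 : ℝ) ^ (i + 1) *
        ((((l (x (dl (i + 1) 1))).toAdd : ℝ) - ((l (x (dl (i + 1) 0))).toAdd : ℝ)) *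
          F (fun j => x (dl (i + 1) (j + 1)))) =
        - ((((l (x 1)).toAdd : ℝ) - ((l (x 0)).toAdd : ℝ)) *
          ((-1 : ℝ) ^ i * F (fun j => x (dl i j + 1)))) -
        if i = 0 then (((l (x 2)).toAdd : ℝ) - ((l (x 1)).toAdd : ℝ)) *
          F (fun j => x (j + 2)) else 0 := by
      intro i
      have e0 : (fun j => x (dl (i + 1) (j + 1))) = fun j => x (dl i j + 1) := by
        funext j
        rw [dl_succ]
      have e2 : dl (i + 1) 0 = 0 := by simp [dl]
      rw [e0, e2]
      rcases Nat.eq_zero_or_pos i with hi | hi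
      · subst hi
        have e3 : dl (0 + 1) 1 = 2 := by simp [dl]
        have e4 : (fun j => x (dl 0 j + 1)) = fun j => x (j + 2) := by
          funext j
          rw [dl_zero]
        rw [e3, e4, if_pos rfl]
        ring
      · have e3 : dl (i + 1) 1 = 1 := by
          unfold dl
          rw [if_pos (by omega)]
        rw [e3, if_neg (by omega)]
        ring
    rw [Finset.sum_congr rfl fun i _ => e1 i, Finset.sum_sub_distrib, Finset.sum_neg_distrib,
      ← Finset.mul_sum, h, Finset.sum_ite_eq']
    rw [if_pos (by simp)]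
    have e5 : (fun j => x (dl 0 (j + 1))) = fun j => x (j + 2) := by
      funext j
      rw [dl_zero]
    beta_reduce
    rw [e5, dl_zero, dl_zero]
    ring
  | pull f _ ih => exact fun x => ih fun j => f (x j)
  | @trans G A K _ _ n F κ hF ih =>
    intro x
    obtain ⟨S, hS⟩ := tF_sup κ (n + 1) x
    have e1 : ∀ i ∈ Finset.range (n + 2), (-1 : ℝ) ^ i * tF κ F (fun j => x (dl i j)) =
        ∑ b ∈ S, ((-1 : ℝ) ^ i * F (fun j => tc κ b (x (dl i j))) -
          (-1 : ℝ) ^ i * F (fun j => td κ b (x (dl i j)))) := by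
      intro i _
      rw [tF_eq_loc κ hF.loc _ S, Finset.mul_sum]
      · apply Finset.sum_congr rfl
        intro b _
        rw [mul_sub]
      · intro b hb j hj
        apply hS b hb
        unfold dl
        split_ifs <;> omega
    rw [Finset.sum_congr rfl e1, Finset.sum_comm]
    apply Finset.sum_eq_zero
    intro b _
    rw [Finset.sum_sub_distrib, ih (fun j => tc κ b (x j)), ih (fun j => td κ b (x j)), sub_zero]
  | @add G _ n F F' _ _ ih ih' =>
    intro x
    have e : ∀ i ∈ Finset.range (n + 2), (-1 : ℝ) ^ i *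
        (F (fun j => x (dl i j)) + F' (fun j => x (dl i j))) =
        (-1 : ℝ) ^ i * F (fun j => x (dl i j)) + (-1 : ℝ) ^ i * F' (fun j => x (dl i j)) :=
      fun i _ => mul_add _ _ _
    rw [Finset.sum_congr rfl e, Finset.sum_add_distrib, ih, ih', add_zero]
  | @smul G _ n F r _ ih =>
    intro x
    have e : ∀ i ∈ Finset.range (n + 2), (-1 : ℝ) ^ i * (r * F (fun j => x (dl i j))) =
        r * ((-1 : ℝ) ^ i * F (fun j => x (dl i j))) := fun i _ => by ring
    rw [Finset.sum_congr rfl e, ← Finset.mul_sum, ih, mul_zero]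

theorem ev_dd {G : Type} [Group G] {n : ℕ} {F : (ℕ → G) → ℝ} (h1 : LI F) (h2 : Loc n F)
    (h3 : Coc n F) (w : T (n + 1) G ℚ) : ev F (dd (1 : Representation ℚ G ℚ) n w) = 0 := by
  have e1 : dd (1 : Representation ℚ G ℚ) n w =
      pp (1 : Representation ℚ G ℚ) n (bd (n + 1) (sg (n + 1) w)) := by
    rw [pp_bd, pp_sg]
  rw [e1, ev_pp h1]
  have h : (evh F) ∘ₗ (bd (n + 1)) = (0 : T (n + 2) G ℚ →ₗ[ℚ] ℝ) := by
    apply T_ext1
    intro x
    rw [LinearMap.comp_apply, bd_single, map_sum, LinearMap.zero_apply]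
    have h4 := h3 (ex x)
    rw [Finset.sum_range] at h4
    rw [← h4]
    apply Finset.sum_congr rfl
    intro i _
    rw [map_smul, evh_single, one_smul, Rat.smul_def]
    push_cast
    congr 1
    apply h2
    intro j hj
    unfold ex
    rw [Function.comp_apply]
    congr 1
    apply Fin.ext
    rw [Fin.succAbove]
    unfold dl
    simp only [Fin.lt_def, Fin.val_castSucc]
    have hmin : min j n = j := by omega
    have hi : (i : ℕ) < n + 2 := i.2
    split_ifs with ha hb hb
    · simp only [Fin.val_castSucc]; omega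
    · rw [hmin] at ha; omega
    · rw [hmin] at ha; omega
    · simp only [Fin.val_succ]; omega
  exact DFunLike.congr_fun h _

/-- The product of `p` linear forms. -/
noncomputable def Lm {K : Type} [Group K] (l : ℕ → (K →* Multiplicative ℤ)) (p : ℕ)
    (x : ℕ → K) : ℝ :=
  ∏ i ∈ Finset.range p, (((l i (x (i + 1))).toAdd : ℝ) - ((l i (x i)).toAdd : ℝ))

theorem Cl.lm {K : Type} [Group K] (p : ℕ) (l : ℕ → (K →* Multiplicative ℤ)) :
    Cl K p (Lm l p) := by
  induction p generalizing l with
  | zero =>
    have h := Cl.one K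
    have e : Lm l 0 = fun _ : ℕ → K => (1 : ℝ) := by
      funext x
      simp [Lm]
    rw [e]
    exact h
  | succ p ih =>
    have h := Cl.lin (l 0) (ih (fun i => l (i + 1)))
    have e : Lm l (p + 1) = fun x =>
        (((l 0 (x 1)).toAdd : ℝ) - ((l 0 (x 0)).toAdd : ℝ)) *
          Lm (fun i => l (i + 1)) p (fun j => x (j + 1)) := by
      funext x
      unfold Lm
      rw [Finset.prod_range_succ', mul_comm]
    rw [e]
    exact h

theorem LI.lm {K : Type} [Group K] (l : ℕ → (K →* Multiplicative ℤ)) (p : ℕ) : LI (Lm l p) :=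
  (Cl.lm p l).li

section Main

variable {B : Type} {d : B → ℕ} {E : GrpCat.{0} ⥤ ModuleCat.{0} ℚ} (α : ∀ b : B, hq (d b) ⟶ E)

/-- The total map is injective for the groups `ℤ^m`. -/
def InjZ : Prop := ∀ (m : ℕ) (x : HB d (Zm m)), tb d α (Zm m) x = 0 → x = 0

variable {α}

theorem kill_lm (hα : InjZ α) (m p : ℕ) (l : ℕ → (Zm m →* Multiplicative ℤ)) :
    Kill α (Zm m) p (Lm l p) := by
  intro x hx b hb z hz
  subst hb
  have h0 := hα m x hx
  rw [h0] at hz
  have h1 : z ∈ LinearMap.range (dd (1 : Representation ℚ (Zm m) ℚ) (d b)) :=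
    hz.eq_zero_iff.mp rfl
  obtain ⟨w, rfl⟩ := h1
  exact ev_dd (Cl.lm _ l).li (Cl.lm _ l).loc (Cl.lm _ l).coc w

/-- The product of linear forms of `ℤ^m` with a cochain of `G`. -/
noncomputable def Ls {m : ℕ} {G : Type} (l : ℕ → (Zm m →* Multiplicative ℤ)) (p : ℕ)
    (F : (ℕ → G) → ℝ) (x : ℕ → Zm m × G) : ℝ :=
  Lm l p (fun j => (x j).1) * F (fun j => (x (p + j)).2)

/-- The strong vanishing property. -/
def SK (α : ∀ b : B, hq (d b) ⟶ E) (G : Type) [Group G] (n : ℕ) (F : (ℕ → G) → ℝ) : Prop :=
  ∀ (p m : ℕ) (l : ℕ → (Zm m →* Multiplicative ℤ)), Kill α (Zm m × G) (p + n) (Ls l p F)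

/-- The pair of cocycles with an auxiliary factor. -/
def prodPair (L : Type) [Group L] {G A K : Type} [Group G] [Group K] (κ : FinPair G A K) :
    FinPair (L × G) A (L × K) where
  σ := κ.σ.comp (MonoidHom.snd L G)
  c g a := (g.1, κ.c g.2 a)
  d g a := (g.1, κ.d g.2 a)
  mul_c g h a := Prod.ext rfl (κ.mul_c g.2 h.2 a)
  mul_d g h a := Prod.ext rfl (κ.mul_d g.2 h.2 a)
  fin g := (κ.fin g.2).subset fun _ ha h => ha (Prod.ext rfl h)

theorem tc_prodPair (L : Type) [Group L] {G A K : Type} [Group G] [Group K] (κ : FinPair G A K)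
    (b : A) (x : L × G) : tc (prodPair L κ) b x = (x.1, tc κ b x.2) := rfl

theorem td_prodPair (L : Type) [Group L] {G A K : Type} [Group G] [Group K] (κ : FinPair G A K)
    (b : A) (x : L × G) : td (prodPair L κ) b x = (x.1, td κ b x.2) := rfl

/-- Adding a coordinate. -/
def addC (m : ℕ) (G : Type) [Group G] (l : G →* Multiplicative ℤ) : Zm m × G →* Zm (m + 1) × G where
  toFun x := (Multiplicative.ofAdd (Fin.cons (l x.2).toAdd x.1.toAdd), x.2)
  map_one' := by
    apply Prod.ext
    · change Multiplicative.ofAdd _ = 1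
      rw [Prod.snd_one, Prod.fst_one, map_one, toAdd_one, toAdd_one]
      apply Multiplicative.toAdd.injective
      funext i
      refine Fin.cases ?_ (fun j => ?_) i <;> rfl
    · rfl
  map_mul' x y := by
    apply Prod.ext
    · change Multiplicative.ofAdd _ = Multiplicative.ofAdd _ * Multiplicative.ofAdd _
      rw [Prod.snd_mul, Prod.fst_mul, map_mul, toAdd_mul, toAdd_mul, ← ofAdd_add]
      apply Multiplicative.toAdd.injective
      funext i
      refine Fin.cases ?_ (fun j => ?_) i <;> rfl
    · rfl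

/-- The first coordinate. -/
def fstC (m : ℕ) : Zm (m + 1) →* Multiplicative ℤ where
  toFun x := Multiplicative.ofAdd (x.toAdd 0)
  map_one' := rfl
  map_mul' _ _ := rfl

/-- The other coordinates. -/
def tailC (m : ℕ) : Zm (m + 1) →* Zm m where
  toFun x := Multiplicative.ofAdd (fun j => x.toAdd j.succ)
  map_one' := rfl
  map_mul' _ _ := rfl

theorem Cl.sk (hE : HasPT E) (hα : InjZ α) {G : Type} [Group G] {n : ℕ} {F : (ℕ → G) → ℝ}
    (h : Cl G n F) : SK α G n F := by
  induction h with
  | one G =>
    intro p m l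
    have h := (kill_lm hα m p l).pull (MonoidHom.fst (Zm m) G)
    have e : (fun x : ℕ → Zm m × G => Lm l p fun j => (MonoidHom.fst (Zm m) G) (x j)) =
        Ls l p (fun _ => 1) := by
      funext x
      simp [Ls]
    rw [e] at h
    exact h
  | @lin G _ n F l' _ ih =>
    intro p m l
    have h := (ih (p + 1) (m + 1)
      (fun i => if i < p then (l i).comp (tailC m) else fstC m)).pull (addC m G l')
    have e : (fun x : ℕ → Zm m × G => Ls (fun i => if i < p then (l i).comp (tailC m) else fstC m)
        (p + 1) F fun j => (addC m G l') (x j)) =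
        Ls l p (fun x => (((l' (x 1)).toAdd : ℝ) - ((l' (x 0)).toAdd : ℝ)) *
          F (fun j => x (j + 1))) := by
      funext x
      unfold Ls Lm
      rw [Finset.prod_range_succ]
      have e1 : ∀ i ∈ Finset.range p,
          (((((if i < p then (l i).comp (tailC m) else fstC m) ((addC m G l') (x (i + 1))).1).toAdd :
            ℤ) : ℝ) - ((((if i < p then (l i).comp (tailC m) else fstC m)
              ((addC m G l') (x i)).1).toAdd : ℤ) : ℝ)) =
          (((l i (x (i + 1)).1).toAdd : ℝ) - ((l i (x i).1).toAdd : ℝ)) := by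
        intro i hi
        rw [Finset.mem_range] at hi
        rw [if_pos hi]
        rfl
      rw [Finset.prod_congr rfl e1]
      beta_reduce
      rw [if_neg (lt_irrefl p)]
      change _ * (((l' (x (p + 1)).2).toAdd : ℝ) - ((l' (x p).2).toAdd : ℝ)) *
        F (fun j => (x (p + 1 + j)).2) = _
      have e2 : (fun j => (x (p + 1 + j)).2) = fun j => (x (p + (j + 1))).2 := by
        funext j
        congr 2
        omega
      rw [e2, mul_assoc]
      rfl
    rw [e] at h
    have e3 : p + 1 + n = p + (n + 1) := by omega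
    rw [e3] at h
    exact h
  | @pull G H _ _ n F f _ ih =>
    intro p m l
    exact (ih p m l).pull (MonoidHom.prodMap (MonoidHom.id (Zm m)) f)
  | @trans G A K _ _ n F κ hF ih =>
    intro p m l
    have hli : LI (Ls l p F) := by
      intro g x
      unfold Ls
      have h1 := (LI.lm l p) g.1 (fun j => (x j).1)
      have h2 := hF.li g.2 (fun j => (x (p + j)).2)
      change Lm l p (fun j => g.1 * (x j).1) * F (fun j => g.2 * (x (p + j)).2) = _
      rw [h1, h2]
    have h := (ih p m l).trans hE (prodPair (Zm m) κ) hli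
    have e : tF (prodPair (Zm m) κ) (Ls l p F) = Ls l p (tF κ F) := by
      funext x
      unfold Ls tF
      rw [← smul_eq_mul, smul_finsum]
      apply finsum_congr
      intro b
      simp only [tc_prodPair, td_prodPair, smul_eq_mul]
      ring
    rw [e] at h
    exact h
  | @add G _ n F F' _ _ ih ih' =>
    intro p m l
    have h := (ih p m l).add (ih' p m l)
    have e : (fun x => Ls l p F x + Ls l p F' x) = Ls l p (fun x => F x + F' x) := by
      funext x
      unfold Ls
      ring
    rw [e] at h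
    exact h
  | @smul G _ n F r _ ih =>
    intro p m l
    have h := (ih p m l).smul r
    have e : (fun x => r * Ls l p F x) = Ls l p (fun x => r * F x) := by
      funext x
      unfold Ls
      ring
    rw [e] at h
    exact h

theorem Cl.kill (hE : HasPT E) (hα : InjZ α) {G : Type} [Group G] {n : ℕ} {F : (ℕ → G) → ℝ}
    (h : Cl G n F) : Kill α G n F := by
  have h1 := ((h.sk hE hα) 0 0 (fun _ => 1)).pull (MonoidHom.inr (Zm 0) G)
  have e : (fun x : ℕ → G => Ls (fun _ : ℕ => (1 : Zm 0 →* Multiplicative ℤ)) 0 F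
      fun j => (MonoidHom.inr (Zm 0) G) (x j)) = F := by
    funext x
    unfold Ls Lm
    simp
  rw [e, zero_add] at h1
  exact h1

end Main

end Pool.Agent.X175.Nov
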