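import Pool.Agent.X175.Nov.Gen
import Pool.Agent.Y483.Functors

/-!
The rationalised L-groups of group rings commute with directed unions of subgroups, and the total
maps of torsion-free commutative groups.
-/

namespace Pool.Agent.X175.Nov

open Pool.Agent.Y483 Pool.Agent.Y110.KW Pool.Agent.Y75.MQ Pool.Agent.Y483.PW Finsupp CategoryTheory
  DirectSum Matrix

section Desc

variable {R S : Type} [Ring R] [StarRing R] [Ring S] [StarRing S] {ε : ℤˣ}

/-- The set of the entries of a matrix. -/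
def ent {m n : ℕ} (M : Matrix (Fin m) (Fin n) S) : Set S :=
  Set.range fun p : Fin m × Fin n => M p.1 p.2

theorem ent_fin {m n : ℕ} (M : Matrix (Fin m) (Fin n) S) : (ent M).Finite := Set.finite_range _

theorem lift_mat {f : R →⋆ₙ+* S} {m n : ℕ} {M : Matrix (Fin m) (Fin n) S}
    (h : ent M ⊆ Set.range f) : ∃ M' : Matrix (Fin m) (Fin n) R, M'.map f = M := by
  have h1 : ∀ i j, ∃ r, f r = M i j := fun i j => h ⟨(i, j), rfl⟩
  choose M' hM using h1
  exact ⟨fun i j => M' i j, by ext i j; exact hM i j⟩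

theorem conj_map (f : R →⋆ₙ+* S) {m n : Type} (M : Matrix m n R) : (M.map f)ᴴ = Mᴴ.map f := by
  ext i j
  exact (map_star f (M j i)).symm

theorem minj {f : R →⋆ₙ+* S} (hf : Function.Injective f) {m n : Type} {M N : Matrix m n R}
    (h : M.map f = N.map f) : M = N := Matrix.map_injective hf h

theorem mulm (f : R →⋆ₙ+* S) {l m n : Type} [Fintype m] (M : Matrix l m R) (N : Matrix m n R) :
    (M * N).map f = M.map f * N.map f := Matrix.map_mul

theorem addm (f : R →⋆ₙ+* S) {m n : Type} (M N : Matrix m n R) :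
    (M + N).map f = M.map f + N.map f := Matrix.map_add f (map_add f) M N

theorem subm (f : R →⋆ₙ+* S) {m n : Type} (M N : Matrix m n R) :
    (M - N).map f = M.map f - N.map f := Matrix.map_sub f (map_sub f) M N

theorem lift_form {f : R →⋆ₙ+* S} (hf : Function.Injective f) {n : ℕ} (x : QForm S ε (Fin n))
    (h1 : ent x.θ ⊆ Set.range f) (h2 : ent x.ψ ⊆ Set.range f) :
    ∃ x' : QForm R ε (Fin n), x'.map f = x := by
  obtain ⟨θ, hθ⟩ := lift_mat h1
  obtain ⟨ψ, hψ⟩ := lift_mat h2
  refine ⟨⟨θ, ψ, ?_, ?_, ?_⟩, QForm.ext hθ hψ⟩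
  · apply minj hf
    rw [← dag_map, hψ, x.dag_psi]
  · apply minj hf
    rw [mulm, mulm, addm, ← dag_map, hθ, hψ, x.psi_phi_psi]
  · apply minj hf
    rw [mulm, mulm, mulm, mulm, addm, ← dag_map, hθ, hψ, x.compress]

theorem lift_isometric {f : R →⋆ₙ+* S} (hf : Function.Injective f) {m n : ℕ}
    {x : QForm R ε (Fin m)} {y : QForm R ε (Fin n)} {u : Matrix (Fin n) (Fin m) S}
    {χ : Matrix (Fin m) (Fin m) S} (h1 : u * (x.map f).ψ * uᴴ = (y.map f).ψ)
    (h2 : uᴴ * (y.map f).θ * u = (x.map f).θ + (χ - dag ε χ)) (hu : ent u ⊆ Set.range f)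
    (hχ : ent χ ⊆ Set.range f) : Isometric x y := by
  obtain ⟨u, rfl⟩ := lift_mat hu
  obtain ⟨χ, rfl⟩ := lift_mat hχ
  refine ⟨u, ?_, χ, ?_⟩
  · apply minj hf
    rw [mulm, mulm, ← conj_map]
    exact h1
  · apply minj hf
    rw [mulm, mulm, addm, subm, ← conj_map, ← dag_map]
    exact h2

theorem lift_hyp {f : R →⋆ₙ+* S} (hf : Function.Injective f) {m : ℕ}
    {x : QForm R ε (Fin m)} {l χ : Matrix (Fin m) (Fin m) S} (h1 : l * l = l)
    (h2 : l * (x.map f).e = l) (h3 : (x.map f).e * l = l)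
    (h4 : (x.map f).θ = lᴴ * (x.map f).φ + (χ - dag ε χ)) (hl : ent l ⊆ Set.range f)
    (hχ : ent χ ⊆ Set.range f) : IsHyp x := by
  obtain ⟨l, rfl⟩ := lift_mat hl
  obtain ⟨χ, rfl⟩ := lift_mat hχ
  rw [QForm.map_e] at h2 h3
  rw [QForm.map_phi] at h4
  refine ⟨l, ?_, ?_, ?_, χ, ?_⟩
  · apply minj hf
    rw [mulm, h1]
  · apply minj hf
    rw [mulm, h2]
  · apply minj hf
    rw [mulm, h3]
  · apply minj hf
    rw [addm, mulm, subm, ← conj_map, ← dag_map]
    exact h4

/-- The element `r` of the span of the relations comes from the span of the relations of each subring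
which contains a certain finite set. -/
def Wit (ε : ℤˣ) (r : Forms S ε →₀ ℚ) : Prop :=
  ∃ E : Set S, E.Finite ∧ ∀ (R : Type) [Ring R] [StarRing R] (f : R →⋆ₙ+* S),
    Function.Injective f → E ⊆ Set.range f →
      ∃ r' ∈ LSpan R ε, Finsupp.mapDomain (formsMap ε f) r' = r

theorem wit_rel {r : Forms S ε →₀ ℚ} (hr : LRel S ε r) : Wit ε r := by
  rcases hr with ⟨⟨m, x⟩, ⟨n, y⟩, ⟨u, hu, χ, hχ⟩, rfl⟩ | ⟨n, x, y, z, h1, h2, h3, h4, rfl⟩ |
    ⟨⟨n, x⟩, ⟨l, hl1, hl2, hl3, χ, hl4⟩, rfl⟩
  · refine ⟨ent x.θ ∪ ent x.ψ ∪ (ent y.θ ∪ ent y.ψ) ∪ (ent u ∪ ent χ), ?_, ?_⟩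
    · exact (((ent_fin _).union (ent_fin _)).union ((ent_fin _).union (ent_fin _))).union
        ((ent_fin _).union (ent_fin _))
    · intro R _ _ f hf hE
      simp only [Set.union_subset_iff] at hE
      obtain ⟨⟨⟨a1, a2⟩, a3, a4⟩, a5, a6⟩ := hE
      obtain ⟨x, rfl⟩ := lift_form hf x a1 a2
      obtain ⟨y, rfl⟩ := lift_form hf y a3 a4
      have h := lift_isometric hf hu hχ a5 a6
      refine ⟨Finsupp.single (⟨m, x⟩ : Forms R ε) 1 - Finsupp.single (⟨n, y⟩ : Forms R ε) 1,
        Submodule.subset_span (Or.inl ⟨⟨m, x⟩, ⟨n, y⟩, h, rfl⟩), ?_⟩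
      rw [← Finsupp.lmapDomain_apply ℚ ℚ, map_sub, Finsupp.lmapDomain_apply,
        Finsupp.lmapDomain_apply, Finsupp.mapDomain_single, Finsupp.mapDomain_single]
      rfl
  · refine ⟨ent x.θ ∪ ent x.ψ ∪ (ent y.θ ∪ ent y.ψ) ∪ (ent z.θ ∪ ent z.ψ), ?_, ?_⟩
    · exact (((ent_fin _).union (ent_fin _)).union ((ent_fin _).union (ent_fin _))).union
        ((ent_fin _).union (ent_fin _))
    · intro R _ _ f hf hE
      simp only [Set.union_subset_iff] at hE
      obtain ⟨⟨⟨a1, a2⟩, a3, a4⟩, a5, a6⟩ := hE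
      obtain ⟨x, rfl⟩ := lift_form hf x a1 a2
      obtain ⟨y, rfl⟩ := lift_form hf y a3 a4
      obtain ⟨z, rfl⟩ := lift_form hf z a5 a6
      rw [QForm.map_phi] at h3 h4
      refine ⟨Finsupp.single (⟨n, z⟩ : Forms R ε) 1 - Finsupp.single (⟨n, x⟩ : Forms R ε) 1 -
          Finsupp.single (⟨n, y⟩ : Forms R ε) 1,
        Submodule.subset_span (Or.inr (Or.inl ⟨n, x, y, z, ?_, ?_, ?_, ?_, rfl⟩)), ?_⟩
      · apply minj hf
        rw [addm]
        exact h1
      · apply minj hf
        rw [addm]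
        exact h2
      · apply minj hf
        rw [mulm]
        exact h3.trans (Matrix.map_zero f (map_zero f)).symm
      · apply minj hf
        rw [mulm]
        exact h4.trans (Matrix.map_zero f (map_zero f)).symm
      · rw [← Finsupp.lmapDomain_apply ℚ ℚ, map_sub, map_sub, Finsupp.lmapDomain_apply,
          Finsupp.lmapDomain_apply, Finsupp.lmapDomain_apply, Finsupp.mapDomain_single,
          Finsupp.mapDomain_single, Finsupp.mapDomain_single]
        rfl
  · refine ⟨ent x.θ ∪ ent x.ψ ∪ (ent l ∪ ent χ), ?_, ?_⟩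
    · exact ((ent_fin _).union (ent_fin _)).union ((ent_fin _).union (ent_fin _))
    · intro R _ _ f hf hE
      simp only [Set.union_subset_iff] at hE
      obtain ⟨⟨a1, a2⟩, a3, a4⟩ := hE
      obtain ⟨x, rfl⟩ := lift_form hf x a1 a2
      have h := lift_hyp hf hl1 hl2 hl3 hl4 a3 a4
      refine ⟨Finsupp.single (⟨n, x⟩ : Forms R ε) 1, Submodule.subset_span (Or.inr (Or.inr ⟨⟨n, x⟩, h, rfl⟩)), ?_⟩
      rw [Finsupp.mapDomain_single]
      rfl

theorem wit_span {r : Forms S ε →₀ ℚ} (hr : r ∈ LSpan S ε) : Wit ε r := by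
  induction hr using Submodule.span_induction with
  | mem r hr => exact wit_rel hr
  | zero =>
    exact ⟨∅, Set.finite_empty, fun R _ _ f _ _ => ⟨0, Submodule.zero_mem _,
      Finsupp.mapDomain_zero⟩⟩
  | add r s _ _ ih ih' =>
    obtain ⟨E, hE, h⟩ := ih
    obtain ⟨E', hE', h'⟩ := ih'
    refine ⟨E ∪ E', hE.union hE', fun R _ _ f hf hEf => ?_⟩
    obtain ⟨a, ha, ha'⟩ := h R f hf (Set.subset_union_left.trans hEf)
    obtain ⟨b, hb, hb'⟩ := h' R f hf (Set.subset_union_right.trans hEf)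
    exact ⟨a + b, Submodule.add_mem _ ha hb, by rw [Finsupp.mapDomain_add, ha', hb']⟩
  | smul q r _ ih =>
    obtain ⟨E, hE, h⟩ := ih
    refine ⟨E, hE, fun R _ _ f hf hEf => ?_⟩
    obtain ⟨a, ha, ha'⟩ := h R f hf hEf
    exact ⟨q • a, Submodule.smul_mem _ _ ha, by rw [Finsupp.mapDomain_smul, ha']⟩

theorem formsMap_inj {f : R →⋆ₙ+* S} (hf : Function.Injective f) :
    Function.Injective (formsMap ε f) := by
  rintro ⟨m, x⟩ ⟨n, y⟩ h
  have h1 : m = n := congrArg Sigma.fst h
  subst h1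
  have h2 : x.map f = y.map f := by
    have := (Sigma.mk.inj_iff.mp h).2
    exact eq_of_heq this
  have h3 : x = y := by
    apply QForm.ext
    · exact minj hf (congrArg QForm.θ h2)
    · exact minj hf (congrArg QForm.ψ h2)
  rw [h3]

end Desc

section GroupRing

variable {G K : Type} [Group G] [Group K]

theorem zgMap_eq (f : G →* K) (x : MonoidAlgebra ℤ G) : zgMap f x = MonoidAlgebra.mapDomain f x := by
  have key : ((zgMap f : MonoidAlgebra ℤ G →⋆ₙ+* MonoidAlgebra ℤ K) :
      MonoidAlgebra ℤ G →+ MonoidAlgebra ℤ K) =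
      { toFun := MonoidAlgebra.mapDomain f
        map_zero' := MonoidAlgebra.mapDomain_zero _
        map_add' := MonoidAlgebra.mapDomain_add _ } := by
    apply MonoidAlgebra.addMonoidHom_ext
    intro g n
    change zgMap f (MonoidAlgebra.single g n) = MonoidAlgebra.mapDomain f (MonoidAlgebra.single g n)
    rw [zgMap_single, MonoidAlgebra.mapDomain_single]
  exact DFunLike.congr_fun key x

theorem zgMap_inj {f : G →* K} (hf : Function.Injective f) : Function.Injective (zgMap f) := by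
  intro x y h
  rw [zgMap_eq, zgMap_eq] at h
  exact MonoidAlgebra.mapDomain_injective hf h

theorem zgMap_range {f : G →* K} (hf : Function.Injective f) (x : MonoidAlgebra ℤ K)
    (hx : (x.coeff.support : Set K) ⊆ Set.range f) : x ∈ Set.range (zgMap f) := by
  refine ⟨.ofCoeff (Finsupp.comapDomain f x.coeff hf.injOn), ?_⟩
  rw [zgMap_eq]
  unfold MonoidAlgebra.mapDomain
  rw [MonoidAlgebra.coeff_ofCoeff, Finsupp.mapDomain_comapDomain f hf _ hx]

end GroupRing

/-- The functor `E` commutes with directed unions of subgroups: an element of `E(H)` which vanishes in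
`E(K)` vanishes in `E(H')` for all subgroups `H'` of `K` which contain `H` and a certain finite set. -/
def Ctn (E : GrpCat.{0} ⥤ ModuleCat.{0} ℚ) : Prop :=
  ∀ (K : Type) [Group K] (H : Subgroup K) (y : E.obj (GrpCat.of H)), emap E H.subtype y = 0 →
    ∃ D : Finset K, ∀ (H' : Subgroup K) (hH : H ≤ H'), (D : Set K) ⊆ H' →
      emap E (Subgroup.inclusion hH) y = 0

theorem timesT_inj {G K : Type} [Group G] [Group K] (T : Type) [Group T] {f : G →* K}
    (hf : Function.Injective f) : Function.Injective (timesT f T) := by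
  rintro ⟨a, b⟩ ⟨a', b'⟩ h
  have h1 : f a = f a' := congrArg Prod.fst h
  have h2 : b = b' := congrArg Prod.snd h
  rw [hf h1, h2]

theorem ctn_lgrp (ε : ℤˣ) (T : Type) [Group T] : Ctn (lgrp ε T) := by
  classical
  intro K _ H y hy
  obtain ⟨r, rfl⟩ := Submodule.mkQ_surjective (LSpan (MonoidAlgebra ℤ (H × T)) ε) y
  have h1 : Finsupp.mapDomain (formsMap ε (zgMap (timesT H.subtype T))) r ∈
      LSpan (MonoidAlgebra ℤ (K × T)) ε := by
    rw [← Submodule.Quotient.mk_eq_zero]
    exact hy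
  obtain ⟨E, hE, hw⟩ := wit_span h1
  refine ⟨hE.toFinset.biUnion fun s => s.coeff.support.image Prod.fst, fun H' hH hD => ?_⟩
  have hinj : Function.Injective (timesT H'.subtype T) := timesT_inj T H'.subtype_injective
  obtain ⟨r', hr', hr''⟩ := hw (MonoidAlgebra ℤ (H' × T)) (zgMap (timesT H'.subtype T))
    (zgMap_inj hinj) (by
      intro s hs
      apply zgMap_range hinj
      intro p hp
      have h2 : p.1 ∈ H' := by
        apply hD
        rw [Finset.mem_coe, Finset.mem_biUnion]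
        exact ⟨s, (Set.Finite.mem_toFinset _).mpr hs, Finset.mem_image.mpr ⟨p, hp, rfl⟩⟩
      exact ⟨(⟨p.1, h2⟩, p.2), rfl⟩)
  have h3 : zgMap (timesT H.subtype T) =
      (zgMap (timesT H'.subtype T)).comp (zgMap (timesT (Subgroup.inclusion hH) T)) :=
    zgMap_comp T (Subgroup.inclusion hH) H'.subtype
  have h4 : formsMap ε (zgMap (timesT H.subtype T)) =
      formsMap ε (zgMap (timesT H'.subtype T)) ∘
        formsMap ε (zgMap (timesT (Subgroup.inclusion hH) T)) := by
    rw [h3]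
    rfl
  rw [h4, Finsupp.mapDomain_comp] at hr''
  have h5 := Finsupp.mapDomain_injective (formsMap_inj (zgMap_inj hinj)) hr''
  change (LSpan (MonoidAlgebra ℤ (H' × T)) ε).mkQ (Finsupp.mapDomain
    (formsMap ε (zgMap (timesT (Subgroup.inclusion hH) T))) r) = 0
  rw [← h5, Submodule.mkQ_apply, Submodule.Quotient.mk_eq_zero]
  exact hr'

section Hom

/-- Each chain comes from a finitely generated subgroup. -/
theorem chain_sub {K : Type} [Group K] {n : ℕ} (z : T n K ℚ) :
    ∃ D : Finset K, ∀ H : Subgroup K, (D : Set K) ⊆ H →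
      ∃ w : T n H ℚ, mp n H.subtype LinearMap.id w = z := by
  classical
  refine ⟨z.support.biUnion fun g => Finset.univ.image g, fun H hH => ?_⟩
  refine ⟨Finsupp.comapDomain (fun g : Fin n → H => H.subtype ∘ g) z ?_, ?_⟩
  · intro a _ b _ hab
    funext i
    exact H.subtype_injective (congrFun hab i)
  · have hinj : Function.Injective (fun g : Fin n → H => H.subtype ∘ g) := by
      intro a b hab
      funext i
      exact H.subtype_injective (congrFun hab i)
    have e : ∀ w : T n H ℚ, mp n H.subtype LinearMap.id w =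
        Finsupp.mapDomain (fun g : Fin n → H => H.subtype ∘ g) w := by
      intro w
      have : mp n H.subtype (LinearMap.id : ℚ →ₗ[ℚ] ℚ) =
          Finsupp.lmapDomain ℚ ℚ (fun g : Fin n → H => H.subtype ∘ g) := by
        apply T_ext
        intro x m
        rw [mp_single, Finsupp.lmapDomain_apply, Finsupp.mapDomain_single]
        rfl
      rw [this]
      rfl
    rw [e, Finsupp.mapDomain_comapDomain _ hinj]
    intro g hg
    refine ⟨fun i => ⟨g i, ?_⟩, rfl⟩
    apply hH
    rw [Finset.mem_coe, Finset.mem_biUnion]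
    exact ⟨g, hg, Finset.mem_image.mpr ⟨i, Finset.mem_univ _, rfl⟩⟩

theorem hq_sub {K : Type} [Group K] {n : ℕ} (x : HQ n K) :
    ∃ D : Finset K, ∀ H : Subgroup K, (D : Set K) ⊆ H → ∃ y : HQ n H, hqMap H.subtype n y = x := by
  obtain ⟨z, hz⟩ := exists_rpr (Rep.trivial ℚ K ℚ) n x
  obtain ⟨D, hD⟩ := chain_sub z
  refine ⟨D, fun H hH => ?_⟩
  obtain ⟨w, hw⟩ := hD H hH
  have hc : Cyc (tQ H) n w := by
    apply cyc_of_mp (τ := tQ K) H.subtype LinearMap.id (fun _ _ => rfl) H.subtype_injective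
      Function.injective_id
    rw [hw]
    exact hz.cyc
  obtain ⟨y, hy⟩ := exists_class (A := Rep.trivial ℚ H ℚ) n w hc
  refine ⟨y, ?_⟩
  have h1 := hy.hq H.subtype
  rw [hw] at h1
  exact rp_unique h1 hz

variable {B : Type} (d : B → ℕ)

theorem hb_sub {K : Type} [Group K] (x : HB d K) :
    ∃ D : Finset K, ∀ H : Subgroup K, (D : Set K) ⊆ H → ∃ y : HB d H, hbMap d H.subtype y = x := by
  classical
  choose D hD using fun b : B => hq_sub (x b)
  refine ⟨(DFinsupp.support x).biUnion D, fun H hH => ?_⟩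
  have h1 : ∀ b : B, ∃ y : HQ (d b) H, b ∈ DFinsupp.support x →
      hqMap H.subtype (d b) y = x b := by
    intro b
    by_cases hb : b ∈ DFinsupp.support x
    · obtain ⟨y, hy⟩ := hD b H (by
        refine Set.Subset.trans ?_ hH
        rw [Finset.coe_subset]
        exact Finset.subset_biUnion_of_mem D hb)
      exact ⟨y, fun _ => hy⟩
    · exact ⟨0, fun h => absurd h hb⟩
  choose y hy using h1
  refine ⟨∑ b ∈ DFinsupp.support x, DirectSum.of (fun b : B => HQ (d b) H) b (y b), ?_⟩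
  rw [map_sum]
  conv_rhs => rw [← DirectSum.sum_support_of x]
  apply Finset.sum_congr rfl
  intro b hb
  rw [hbMap_of, hy b hb]

variable {E : GrpCat.{0} ⥤ ModuleCat.{0} ℚ} (α : ∀ b : B, hq (d b) ⟶ E)

/-- If the total map is injective for all finitely generated subgroups, it is injective. -/
theorem inj_of_fg (hE : Ctn E) {K : Type} [Group K]
    (h : ∀ H : Subgroup K, H.FG → ∀ x : HB d H, tb d α H x = 0 → x = 0) (x : HB d K)
    (hx : tb d α K x = 0) : x = 0 := by
  classical
  obtain ⟨D, hD⟩ := hb_sub d x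
  obtain ⟨y, rfl⟩ := hD (Subgroup.closure D) Subgroup.subset_closure
  rw [← tb_nat] at hx
  obtain ⟨D', hD'⟩ := hE K (Subgroup.closure D) (tb d α _ y) hx
  have hle : Subgroup.closure (D : Set K) ≤ Subgroup.closure ((D ∪ D' : Finset K) : Set K) := by
    apply Subgroup.closure_mono
    rw [Finset.coe_subset]
    exact Finset.subset_union_left
  have h1 := hD' (Subgroup.closure ((D ∪ D' : Finset K) : Set K)) hle (by
    refine Set.Subset.trans ?_ Subgroup.subset_closure
    rw [Finset.coe_subset]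
    exact Finset.subset_union_right)
  rw [tb_nat] at h1
  have h2 := h _ ⟨_, rfl⟩ _ h1
  have h3 : (Subgroup.closure (D : Set K)).subtype =
      (Subgroup.closure ((D ∪ D' : Finset K) : Set K)).subtype.comp (Subgroup.inclusion hle) := rfl
  rw [h3, hbMap_comp, h2, map_zero]

end Hom

end Pool.Agent.X175.Nov
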