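import Pool.Agent.X175.Nov.H
import Pool.Agent.Y483.PW.Span

/-!
The universal group of a pair of cocycles which agree up to finite sets, and the compatibility of
the total maps with the transfer.
-/

namespace Pool.Agent.X175.Nov

open Pool.Agent.Y483 Pool.Agent.Y110.KW Pool.Agent.Y75.MQ Pool.Agent.Y483.PW Finsupp CategoryTheory
  DirectSum Pointwise

section

variable {G A K : Type} [Group G] [Group K] (κ : FinPair G A K)

/-- The set `A`, with the action of `G`. -/
def Pt (_ : FinPair G A K) : Type := A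

instance : MulAction G (Pt κ) := MulAction.compHom A κ.σ

theorem pt_smul (g : G) (a : Pt κ) : g • a = (κ.σ g a : A) := rfl

/-- The group of the functions `A → K` of finite support. -/
def FS (A K : Type) [Group K] : Subgroup (A → K) where
  carrier := {n | {a | n a ≠ 1}.Finite}
  mul_mem' {m n} hm hn := by
    refine (hm.union hn).subset fun a ha => ?_
    by_contra h
    simp only [Set.mem_union, Set.mem_ofPred_eq, not_or, not_not] at h
    apply ha
    rw [Pi.mul_apply, h.1, h.2, mul_one]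
  one_mem' := by simp
  inv_mem' {n} hn := by
    refine hn.subset fun a ha h => ha ?_
    rw [Pi.inv_apply, h, inv_one]

theorem d_inv_mul (g : G) (a : A) : κ.d g a * (κ.d g a)⁻¹ = 1 := mul_inv_cancel _

/-- The twisted action on functions. -/
def tw (g : G) (n : A → K) (a : A) : K :=
  κ.d g ((κ.σ g)⁻¹ a) * n ((κ.σ g)⁻¹ a) * (κ.d g ((κ.σ g)⁻¹ a))⁻¹

theorem tw_mul (g : G) (m n : A → K) : tw κ g (m * n) = tw κ g m * tw κ g n := by
  funext a
  simp only [tw, Pi.mul_apply]
  group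

theorem tw_tw (g h : G) (n : A → K) : tw κ (g * h) n = tw κ g (tw κ h n) := by
  funext a
  have e1 : (κ.σ (g * h))⁻¹ a = (κ.σ h)⁻¹ ((κ.σ g)⁻¹ a) := by
    rw [map_mul, mul_inv_rev, Equiv.Perm.mul_apply]
  have e2 : κ.σ h ((κ.σ h)⁻¹ ((κ.σ g)⁻¹ a)) = (κ.σ g)⁻¹ a := (κ.σ h).apply_symm_apply _
  simp only [tw]
  rw [e1, κ.mul_d, e2]
  group

theorem tw_one (n : A → K) : tw κ 1 n = n := by
  funext a
  have e1 : (κ.σ 1)⁻¹ a = a := by rw [map_one, inv_one]; rfl
  simp only [tw]
  rw [e1, cocycle_one κ.mul_d]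
  group

theorem tw_fin (g : G) (n : A → K) (hn : n ∈ FS A K) : tw κ g n ∈ FS A K := by
  have h : {a | n ((κ.σ g)⁻¹ a) ≠ 1}.Finite :=
    Set.Finite.preimage (f := fun a => (κ.σ g)⁻¹ a) (Equiv.injective _).injOn hn
  refine h.subset fun a ha h2 => ha ?_
  simp only [tw]
  rw [h2]
  group

/-- The twisted action of `G` on the group of functions of finite support. -/
def phiD : G →* MulAut (FS A K) where
  toFun g :=
    { toFun := fun n => ⟨tw κ g n.1, tw_fin κ g n.1 n.2⟩
      invFun := fun n => ⟨tw κ g⁻¹ n.1, tw_fin κ g⁻¹ n.1 n.2⟩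
      left_inv := fun n => Subtype.ext (by
        change tw κ g⁻¹ (tw κ g n.1) = n.1
        rw [← tw_tw, inv_mul_cancel, tw_one])
      right_inv := fun n => Subtype.ext (by
        change tw κ g (tw κ g⁻¹ n.1) = n.1
        rw [← tw_tw, mul_inv_cancel, tw_one])
      map_mul' := fun m n => Subtype.ext (tw_mul κ g m.1 n.1) }
  map_one' := by
    apply MulEquiv.ext
    intro n
    exact Subtype.ext (tw_one κ n.1)
  map_mul' g h := by
    apply MulEquiv.ext
    intro n
    exact Subtype.ext (tw_tw κ g h n.1)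

theorem phiD_apply (g : G) (n : FS A K) (a : A) : (phiD κ g n).1 a = tw κ g n.1 a := rfl

open Classical in
/-- The restriction of a function to `S`, extended by `1`. -/
noncomputable def rsF (S : Set A) (n : A → K) (a : A) : K := if a ∈ S then n a else 1

open Classical in
/-- The restriction to `S`. -/
noncomputable def rs (S : Set A) : FS A K →* FS A K where
  toFun n := ⟨rsF S n.1, n.2.subset fun a ha h => ha (by simp only [rsF]; rw [h]; simp)⟩
  map_one' := Subtype.ext (by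
    funext a
    simp [rsF])
  map_mul' m n := Subtype.ext (by
    funext a
    change rsF S (m.1 * n.1) a = rsF S m.1 a * rsF S n.1 a
    unfold rsF
    split_ifs <;> simp)

theorem rs_apply (S : Set A) (n : FS A K) (a : A) : (rs S n).1 a = rsF S n.1 a := rfl

/-- The system of supports of the universal group. -/
noncomputable def sysD : Sys G (FS A K) (Pt κ) where
  φ := phiD κ
  e S := rs (show Set A from S)
  inter S T n := by
    apply Subtype.ext
    funext a
    change rsF (A := A) S (rsF T n.1) a = rsF (A := A) (S ∩ T) n.1 a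
    unfold rsF
    by_cases h1 : a ∈ (show Set A from S)
    · by_cases h2 : a ∈ (show Set A from T)
      · rw [if_pos h1, if_pos h2, if_pos ⟨h1, h2⟩]
      · rw [if_pos h1, if_neg h2, if_neg fun h => h2 h.2]
    · rw [if_neg h1, if_neg fun h => h1 h.1]
  equivariant g S n := by
    apply Subtype.ext
    funext a
    change tw κ g (rsF (A := A) S n.1) a = rsF (A := A) (g • S) (tw κ g n.1) a
    have hiff : a ∈ (show Set A from g • S) ↔ (κ.σ g)⁻¹ a ∈ (show Set A from S) := by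
      constructor
      · rintro ⟨b, hb, rfl⟩
        change (κ.σ g)⁻¹ (κ.σ g b) ∈ _
        have : (κ.σ g)⁻¹ (κ.σ g b) = b := (κ.σ g).symm_apply_apply b
        rw [this]
        exact hb
      · intro h
        exact ⟨(κ.σ g)⁻¹ a, h, (κ.σ g).apply_symm_apply a⟩
    unfold rsF
    simp only [tw]
    by_cases h1 : a ∈ (show Set A from g • S)
    · rw [if_pos h1, if_pos (hiff.mp h1)]
    · rw [if_neg h1, if_neg fun h => h1 (hiff.mpr h)]
      group
  finite n := by
    refine ⟨n.2.toFinset, ?_⟩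
    apply Subtype.ext
    funext a
    change rsF (A := A) _ n.1 a = n.1 a
    unfold rsF
    by_cases h : n.1 a = 1
    · split_ifs
      · rfl
      · exact h.symm
    · rw [if_pos]
      exact (Set.Finite.mem_toFinset _).mpr h

/-- The universal group. -/
abbrev GD : Type := (sysD κ).G

/-- The pair of cocycles of the universal group. -/
noncomputable def kD : FinPair (GD κ) A K where
  σ := κ.σ.comp SemidirectProduct.rightHom
  c w a := w.left.1 (κ.σ w.right a) * κ.d w.right a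
  d w a := κ.d w.right a
  mul_c w v a := by
    change (w.left.1 * tw κ w.right v.left.1) (κ.σ (w.right * v.right) a) *
      κ.d (w.right * v.right) a = w.left.1 (κ.σ w.right (κ.σ v.right a)) *
        κ.d w.right (κ.σ v.right a) * (v.left.1 (κ.σ v.right a) * κ.d v.right a)
    have e1 : (κ.σ w.right)⁻¹ (κ.σ (w.right * v.right) a) = κ.σ v.right a := by
      rw [map_mul, Equiv.Perm.mul_apply]
      exact (κ.σ w.right).symm_apply_apply _
    have e2 : κ.σ (w.right * v.right) a = κ.σ w.right (κ.σ v.right a) := by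
      rw [map_mul, Equiv.Perm.mul_apply]
    rw [Pi.mul_apply]
    simp only [tw]
    rw [e1, e2, κ.mul_d]
    group
  mul_d w v a := by
    change κ.d (w.right * v.right) a = κ.d w.right (κ.σ v.right a) * κ.d v.right a
    exact κ.mul_d _ _ _
  fin w := by
    have h : {a | w.left.1 (κ.σ w.right a) ≠ 1}.Finite :=
      Set.Finite.preimage (f := fun a => κ.σ w.right a) (Equiv.injective _).injOn w.left.2
    refine h.subset fun a ha h2 => ha ?_
    rw [h2, one_mul]

/-- The homomorphism to the universal group. -/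
def chi : G →* GD κ where
  toFun g := ⟨⟨fun a => κ.c g ((κ.σ g)⁻¹ a) * (κ.d g ((κ.σ g)⁻¹ a))⁻¹, by
    have h : {a | κ.c g ((κ.σ g)⁻¹ a) ≠ κ.d g ((κ.σ g)⁻¹ a)}.Finite :=
      Set.Finite.preimage (f := fun a => (κ.σ g)⁻¹ a) (Equiv.injective _).injOn (κ.fin g)
    refine h.subset fun a ha h2 => ha ?_
    change κ.c g ((κ.σ g)⁻¹ a) * (κ.d g ((κ.σ g)⁻¹ a))⁻¹ = 1
    rw [h2, mul_inv_cancel]⟩, g⟩
  map_one' := by
    apply SemidirectProduct.ext
    · apply Subtype.ext
      funext a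
      change κ.c 1 ((κ.σ 1)⁻¹ a) * (κ.d 1 ((κ.σ 1)⁻¹ a))⁻¹ = 1
      rw [cocycle_one κ.mul_d, cocycle_one κ.mul_c, inv_one, mul_one]
    · rfl
  map_mul' g h := by
    apply SemidirectProduct.ext
    · apply Subtype.ext
      funext a
      change κ.c (g * h) ((κ.σ (g * h))⁻¹ a) * (κ.d (g * h) ((κ.σ (g * h))⁻¹ a))⁻¹ =
        (κ.c g ((κ.σ g)⁻¹ a) * (κ.d g ((κ.σ g)⁻¹ a))⁻¹) *
          (κ.d g ((κ.σ g)⁻¹ a) * (κ.c h ((κ.σ h)⁻¹ ((κ.σ g)⁻¹ a)) *
            (κ.d h ((κ.σ h)⁻¹ ((κ.σ g)⁻¹ a)))⁻¹) * (κ.d g ((κ.σ g)⁻¹ a))⁻¹)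
      have e1 : (κ.σ (g * h))⁻¹ a = (κ.σ h)⁻¹ ((κ.σ g)⁻¹ a) := by
        rw [map_mul, mul_inv_rev, Equiv.Perm.mul_apply]
      have e2 : κ.σ h ((κ.σ h)⁻¹ ((κ.σ g)⁻¹ a)) = (κ.σ g)⁻¹ a := (κ.σ h).apply_symm_apply _
      rw [e1, κ.mul_d, κ.mul_c, e2]
      group
    · rfl

theorem chi_c (b : A) (x : G) : tc κ b x = tc (kD κ) b (chi κ x) := by
  have e : κ.σ x ((κ.σ x)⁻¹ b) = b := (κ.σ x).apply_symm_apply b
  change κ.c x ((κ.σ x)⁻¹ b) = κ.c x ((κ.σ x)⁻¹ (κ.σ x ((κ.σ x)⁻¹ b))) *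
    (κ.d x ((κ.σ x)⁻¹ (κ.σ x ((κ.σ x)⁻¹ b))))⁻¹ * κ.d x ((κ.σ x)⁻¹ b)
  rw [e]
  group

theorem chi_d (b : A) (x : G) : td κ b x = td (kD κ) b (chi κ x) := rfl

variable {B : Type} (d : B → ℕ) {E : GrpCat.{0} ⥤ ModuleCat.{0} ℚ} (α : ∀ b : B, hq (d b) ⟶ E)

open Classical in
/-- The label of a homomorphism at a fixed point. -/
noncomputable def lb {L : Type} [Group L] (f : L →* G) (c : G → A → K)
    (hc : ∀ g h a, c (g * h) a = c g (κ.σ h a) * c h a) (a : A) : L →* K :=
  if hf : ∀ l, κ.σ (f l) a = a then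
    MonoidHom.mk' (fun l => c (f l) a) (fun l l' => by rw [map_mul, hc, hf l'])
  else 1

theorem lb_apply {L : Type} [Group L] (f : L →* G) (c : G → A → K)
    (hc : ∀ g h a, c (g * h) a = c g (κ.σ h a) * c h a) {a : A} (hf : ∀ l, κ.σ (f l) a = a)
    (l : L) : lb κ f c hc a l = c (f l) a := by
  unfold lb
  rw [dif_pos hf]
  rfl

/-- The component of the family, as a linear map. -/
noncomputable def am (b : B) (G : Type) [Group G] : HQ (d b) G →ₗ[ℚ] E.obj (GrpCat.of G) :=
  ((α b).app (GrpCat.of G)).hom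

theorem am_nat (b : B) {G K : Type} [Group G] [Group K] (f : G →* K) (y : HQ (d b) G) :
    am d α b K (hqMap f (d b) y) = emap E f (am d α b G y) :=
  congrArg (fun g => g.hom y) ((α b).naturality (GrpCat.ofHom f))

theorem am_of [inst : DecidableEq B] (G : Type) [Group G] (b : B) (y : HQ (d b) G) :
    tb d α G (DirectSum.of (fun b : B => HQ (d b) G) b y) = am d α b G y := by
  have h := tb_of d α G b y
  have e : inst = fun a b => Classical.propDecidable (a = b) := Subsingleton.elim _ _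
  subst e
  exact h

theorem am_step (b : B) {κ : FinPair G A K}
    (Φ : E.obj (GrpCat.of G) →ₗ[ℚ] E.obj (GrpCat.of K))
    (hΦ : ∀ (G₀ : Type) [Group G₀] (j : G₀ →* G) (Y : Finset A) (lc ld : A → (G₀ →* K)),
        (∀ a ∈ Y, ∀ g, κ.σ (j g) a = a ∧ lc a g = κ.c (j g) a ∧ ld a g = κ.d (j g) a) →
        (∀ a ∉ Y, ∀ g, κ.c (j g) a = κ.d (j g) a) → ∀ x : E.obj (GrpCat.of G₀),
          Φ (emap E j x) = ∑ a ∈ Y, (emap E (lc a) x - emap E (ld a) x))
    {L : Type} [Group L] (f : L →* G) (Y : Finset A) (hσ : ∀ a ∈ Y, ∀ l, κ.σ (f l) a = a)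
    (hY' : ∀ a ∉ Y, ∀ l, κ.c (f l) a = κ.d (f l) a) (w : HQ (d b) L) :
    Φ (am d α b G (hqMap f (d b) w)) = am d α b K (trH κ (d b) (hqMap f (d b) w)) := by
  have hY : ∀ a ∈ Y, ∀ l, κ.σ (f l) a = a ∧
      lb κ f κ.c κ.mul_c a l = κ.c (f l) a ∧ lb κ f κ.d κ.mul_d a l = κ.d (f l) a := by
    intro a ha l
    exact ⟨hσ a ha l, lb_apply κ f _ _ (hσ a ha) l, lb_apply κ f _ _ (hσ a ha) l⟩
  have h1 := hΦ L f Y (lb κ f κ.c κ.mul_c) (lb κ f κ.d κ.mul_d) hY hY' (am d α b L w)
  rw [am_nat d α b f, h1, trH_fix κ f Y _ _ hY hY', map_sum]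
  apply Finset.sum_congr rfl
  intro a _
  rw [map_sub, am_nat, am_nat]

theorem tb_trD (hE : HasPT E) : ∃ Φ : E.obj (GrpCat.of (GD κ)) →ₗ[ℚ] E.obj (GrpCat.of K),
    ∀ x : HB d (GD κ), Φ (tb d α (GD κ) x) = tb d α K (trB (kD κ) d x) := by
  classical
  obtain ⟨Φ, hΦ⟩ := hE (GD κ) A K (kD κ)
  refine ⟨Φ, fun x => ?_⟩
  have h : Φ ∘ₗ (tb d α (GD κ)) = (tb d α K) ∘ₗ (trB (kD κ) d) := by
    apply DirectSum.linearMap_ext
    intro b
    apply LinearMap.ext
    intro y
    change Φ (tb d α (GD κ) (DirectSum.of (fun b : B => HQ (d b) (GD κ)) b y)) =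
      tb d α K (trB (kD κ) d (DirectSum.of (fun b : B => HQ (d b) (GD κ)) b y))
    rw [trB_of, am_of, am_of]
    obtain ⟨I, w, rfl⟩ := (sysD κ).span_basQ (d b) y
    rw [map_sum, map_sum, map_sum, map_sum]
    apply Finset.sum_congr rfl
    intro τ _
    unfold Sys.basQ
    rw [map_sum, map_sum, map_sum, map_sum]
    apply Finset.sum_congr rfl
    intro U hU
    rw [map_smul, map_smul, map_smul, map_smul]
    congr 1
    rw [Finset.mem_powerset] at hU
    have hfix : (sysD κ).Fix ((sysD κ).fixG τ).subtype τ := fun l v hv => l.2 v hv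
    have hfa : ∀ l, (sysD κ).cutT ((sysD κ).fixG τ).subtype (U : Set (Pt κ)) l =
        (sysD κ).ep (U : Set (Pt κ)) l.1 := fun l =>
      (sysD κ).cutT_apply ((sysD κ).fixG τ).subtype (U : Set (Pt κ))
        (hfix.smul (sysD κ) hU) l
    refine am_step d α b (κ := kD κ) Φ hΦ
      ((sysD κ).cutT ((sysD κ).fixG τ).subtype (U : Set (Pt κ)))
      (show Finset A from U) ?_ ?_ (w τ)
    · intro a ha l
      rw [hfa]
      exact l.2 a (hU ha)
    · intro a ha l
      rw [hfa]
      have h1 : κ.σ l.1.right a ∉ (((show Finset A from U) : Finset A) : Set A) := by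
        intro h2
        apply ha
        have h3 : κ.σ l.1.right (κ.σ l.1.right a) = κ.σ l.1.right a := l.2 _ (hU h2)
        have h4 := (κ.σ l.1.right).injective h3
        rw [h4] at h2
        exact h2
      have h5 : rsF (A := A) (((show Finset A from U) : Finset A) : Set A) l.1.left.1
          (κ.σ l.1.right a) = 1 := if_neg h1
      change rsF (A := A) (((show Finset A from U) : Finset A) : Set A) l.1.left.1
        (κ.σ l.1.right a) * κ.d l.1.right a = κ.d l.1.right a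
      rw [h5, one_mul]
  exact DFunLike.congr_fun h x

/-- **The total maps commute with the transfers.** -/
theorem tb_tr (hE : HasPT E) : ∃ Φ : E.obj (GrpCat.of G) →ₗ[ℚ] E.obj (GrpCat.of K),
    ∀ x : HB d G, Φ (tb d α G x) = tb d α K (trB κ d x) := by
  obtain ⟨Φ, hΦ⟩ := tb_trD κ d α hE
  refine ⟨Φ ∘ₗ (emap E (chi κ)), fun x => ?_⟩
  rw [LinearMap.comp_apply, tb_nat, hΦ,
    ← trB_map κ d (kD κ) (chi κ) (fun b x => chi_c κ b x) (fun b x => chi_d κ b x)]

theorem tb_ker (hE : HasPT E) {x : HB d G} (hx : tb d α G x = 0) :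
    tb d α K (trB κ d x) = 0 := by
  obtain ⟨Φ, hΦ⟩ := tb_tr κ d α hE
  rw [← hΦ, hx, map_zero]

end

end Pool.Agent.X175.Nov
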