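import Pool.Agent.X175.Nov.D

/-!
Evaluation of invariant cochains on chains, and the transfer of cochains.
-/

namespace Pool.Agent.X175.Nov

open Pool.Agent.Y483 Pool.Agent.Y110.KW Pool.Agent.Y75.MQ Pool.Agent.Y483.PW Finsupp CategoryTheory
  DirectSum

section

variable {G A K : Type} [Group G] [Group K]

/-- The value of the function `F` of sequences on a chain. -/
noncomputable def ev (F : (ℕ → G) → ℝ) {n : ℕ} : T n G ℚ →ₗ[ℚ] ℝ :=
  lsum ℚ fun g => LinearMap.toSpanSingleton ℚ ℝ (F (vt g))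

/-- The value on a homogeneous chain. -/
noncomputable def evh (F : (ℕ → G) → ℝ) {n : ℕ} : T (n + 1) G ℚ →ₗ[ℚ] ℝ :=
  lsum ℚ fun x => LinearMap.toSpanSingleton ℚ ℝ (F (ex x))

theorem ev_single (F : (ℕ → G) → ℝ) {n : ℕ} (g : Fin n → G) (q : ℚ) :
    ev F (single g q) = q • F (vt g) := by
  simp [ev]

theorem evh_single (F : (ℕ → G) → ℝ) {n : ℕ} (x : Fin (n + 1) → G) (q : ℚ) :
    evh F (single x q) = q • F (ex x) := by
  simp [evh]

theorem ev_eq_sum (F : (ℕ → G) → ℝ) {n : ℕ} (z : T n G ℚ) :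
    ev F z = z.sum fun g q => (q : ℝ) * F (vt g) := by
  unfold ev
  rw [Finsupp.lsum_apply]
  apply Finsupp.sum_congr
  intro g _
  rw [LinearMap.toSpanSingleton_apply, Rat.smul_def]

theorem T_extR {n : ℕ} {X V : Type*} [AddCommGroup V] [Module ℚ V] {f g : T n X ℚ →ₗ[ℚ] V}
    (h : ∀ x, f (single x 1) = g (single x 1)) : f = g := T_ext1 h

theorem ev_mp (f : G →* K) (F : (ℕ → K) → ℝ) {n : ℕ} (z : T n G ℚ) :
    ev F (mp n f LinearMap.id z) = ev (fun x => F fun j => f (x j)) z := by
  have h : (ev F) ∘ₗ (mp n f LinearMap.id) = ev (fun x => F fun j => f (x j)) := by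
    apply T_ext1
    intro g
    rw [LinearMap.comp_apply, mp_single, LinearMap.id_apply, ev_single, ev_single]
    congr 2
    funext j
    unfold vt ex
    have hp : ∀ k : Fin (n + 1), Fin.partialProd (f ∘ g) k = f (Fin.partialProd g k) := by
      intro k
      induction k using Fin.induction with
      | zero => rw [Fin.partialProd_zero, Fin.partialProd_zero, map_one]
      | succ k ih => rw [Fin.partialProd_succ, Fin.partialProd_succ, ih, map_mul]; rfl
    exact hp _
  exact DFunLike.congr_fun h z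

theorem ev_pp {F : (ℕ → G) → ℝ} (hF : LI F) {n : ℕ} (w : T (n + 1) G ℚ) :
    ev F (pp (1 : Representation ℚ G ℚ) n w) = evh F w := by
  have h : (ev F) ∘ₗ (pp (1 : Representation ℚ G ℚ) n) = evh F := by
    apply T_ext1
    intro x
    rw [LinearMap.comp_apply, pp_single, evh_single]
    have e0 : ((1 : Representation ℚ G ℚ) (x 0)⁻¹) 1 = (1 : ℚ) := rfl
    rw [e0, ev_single]
    congr 1
    rw [← hF (x 0)]
    congr 1
    funext j
    unfold vt ex
    have h := congrFun (Fin.partialProd_left_inv x) ⟨min j n, by omega⟩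
    exact h
  exact DFunLike.congr_fun h w

variable (κ : FinPair G A K)

theorem tF_eq_loc {F : (ℕ → K) → ℝ} {n : ℕ} (hF : Loc n F) (x : ℕ → G) (S : Finset A)
    (hS : ∀ b ∉ S, ∀ j ≤ n, tc κ b (x j) = td κ b (x j)) :
    tF κ F x = ∑ b ∈ S, (F (fun j => tc κ b (x j)) - F (fun j => td κ b (x j))) := by
  unfold tF
  apply finsum_eq_sum_of_support_subset
  intro b hb
  by_contra h
  apply hb
  change F (fun j => tc κ b (x j)) - F (fun j => td κ b (x j)) = 0
  rw [hF _ (fun j => td κ b (x j)) fun j hj => hS b h j hj, sub_self]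

theorem tF_eq (F : (ℕ → K) → ℝ) (x : ℕ → G) (S : Finset A)
    (hS : ∀ b ∉ S, ∀ j, tc κ b (x j) = td κ b (x j)) :
    tF κ F x = ∑ b ∈ S, (F (fun j => tc κ b (x j)) - F (fun j => td κ b (x j))) := by
  unfold tF
  apply finsum_eq_sum_of_support_subset
  intro b hb
  by_contra h
  apply hb
  change F (fun j => tc κ b (x j)) - F (fun j => td κ b (x j)) = 0
  have : (fun j => tc κ b (x j)) = fun j => td κ b (x j) := funext fun j => hS b h j
  rw [this, sub_self]

theorem tF_sup (n : ℕ) (x : ℕ → G) :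
    ∃ S : Finset A, ∀ b ∉ S, ∀ j ≤ n, tc κ b (x j) = td κ b (x j) := by
  refine ⟨(tsup_fin κ (fun j : Fin (n + 1) => x j)).toFinset, fun b hb j hj => ?_⟩
  by_contra h
  exact hb ((Set.Finite.mem_toFinset _).mpr ⟨⟨j, by omega⟩, h⟩)

theorem ev_trT {F : (ℕ → K) → ℝ} (hF : LI F) {n : ℕ} (z : T n G ℚ) :
    ev F (trT κ n z) = ev (tF κ F) z := by
  have h : (ev F) ∘ₗ (trT κ n) = ev (tF κ F) := by
    apply T_ext1
    intro g
    rw [LinearMap.comp_apply, ev_single, one_smul]
    have e1 : trT κ n (single g 1) =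
        pp (1 : Representation ℚ K ℚ) n (uv κ (n + 1) (Fin.partialProd g)) := by
      unfold trT
      rw [LinearMap.comp_apply, LinearMap.comp_apply, sg_single, U_single, one_smul]
    rw [e1, ev_pp hF]
    unfold uv
    rw [map_sum, tF_eq κ F (vt g) (tsup_fin κ (Fin.partialProd g)).toFinset]
    · apply Finset.sum_congr rfl
      intro b _
      unfold dv
      rw [map_sub, evh_single, evh_single, one_smul, one_smul]
      rfl
    · intro b hb j
      by_contra h
      exact hb ((Set.Finite.mem_toFinset _).mpr ⟨_, h⟩)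
  exact DFunLike.congr_fun h z

theorem LI.tF {F : (ℕ → K) → ℝ} (hF : LI F) : LI (tF κ F) := by
  intro g x
  unfold Nov.tF
  rw [← finsum_comp_equiv (κ.σ g)]
  apply finsum_congr
  intro b
  have e1 : (κ.σ g)⁻¹ (κ.σ g b) = b := (κ.σ g).symm_apply_apply b
  have e2 : (fun j => tc κ (κ.σ g b) (g * x j)) = fun j => κ.c g b * tc κ b (x j) := by
    funext j
    rw [tc_mul, e1]
  have e3 : (fun j => td κ (κ.σ g b) (g * x j)) = fun j => κ.d g b * td κ b (x j) := by
    funext j
    rw [td_mul, e1]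
  rw [e2, e3, hF _ (fun j => tc κ b (x j)), hF _ (fun j => td κ b (x j))]

theorem Loc.tF {n : ℕ} {F : (ℕ → K) → ℝ} (hF : Loc n F) : Loc n (tF κ F) := by
  intro x y h
  unfold Nov.tF
  apply finsum_congr
  intro b
  rw [hF (fun j => tc κ b (x j)) (fun j => tc κ b (y j)) fun j hj => by simp only [h j hj],
    hF (fun j => td κ b (x j)) (fun j => td κ b (y j)) fun j hj => by simp only [h j hj]]

end

section Kill

variable {B : Type} {d : B → ℕ} {E : GrpCat.{0} ⥤ ModuleCat.{0} ℚ} (α : ∀ b : B, hq (d b) ⟶ E)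

/-- The cochain `F` of degree `n` vanishes on the components of degree `n` of the elements of the
kernel of the total map. -/
def Kill (G : Type) [Group G] (n : ℕ) (F : (ℕ → G) → ℝ) : Prop :=
  ∀ x : HB d G, tb d α G x = 0 → ∀ b, d b = n → ∀ z : T (d b) G ℚ, Rp (d b) z (x b) → ev F z = 0

variable {α}

theorem Kill.pull {G H : Type} [Group G] [Group H] (f : G →* H) {n : ℕ} {F : (ℕ → H) → ℝ}
    (h : Kill α H n F) : Kill α G n (fun x => F fun j => f (x j)) := by
  intro x hx b hb z hz
  have h1 := h (hbMap d f x) (tb_map d α f hx) b hb (mp (d b) f LinearMap.id z) (by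
    rw [hbMap_apply]
    exact hz.hq f)
  rw [ev_mp] at h1
  exact h1

theorem Kill.trans (hE : HasPT E) {G A K : Type} [Group G] [Group K] (κ : FinPair G A K) {n : ℕ}
    {F : (ℕ → K) → ℝ} (hF : LI F) (h : Kill α K n F) : Kill α G n (tF κ F) := by
  intro x hx b hb z hz
  have h1 := h (trB κ d x) (tb_ker κ d α hE hx) b hb (trT κ (d b) z) (by
    rw [trB_apply]
    exact trH_spec κ hz)
  rw [ev_trT κ hF] at h1
  exact h1

theorem Kill.add {G : Type} [Group G] {n : ℕ} {F F' : (ℕ → G) → ℝ} (h : Kill α G n F)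
    (h' : Kill α G n F') : Kill α G n (fun x => F x + F' x) := by
  intro x hx b hb z hz
  have h1 := h x hx b hb z hz
  have h2 := h' x hx b hb z hz
  rw [ev_eq_sum] at *
  have h3 : (z.sum fun g q => (q : ℝ) * (F (vt g) + F' (vt g))) =
      (z.sum fun g q => (q : ℝ) * F (vt g)) + z.sum fun g q => (q : ℝ) * F' (vt g) := by
    rw [← Finsupp.sum_add]
    apply Finsupp.sum_congr
    intro g _
    ring
  rw [h3, h1, h2, add_zero]

theorem Kill.smul {G : Type} [Group G] {n : ℕ} (r : ℝ) {F : (ℕ → G) → ℝ} (h : Kill α G n F) :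
    Kill α G n (fun x => r * F x) := by
  intro x hx b hb z hz
  have h1 := h x hx b hb z hz
  rw [ev_eq_sum] at *
  have h3 : (z.sum fun g q => (q : ℝ) * (r * F (vt g))) =
      r * z.sum fun g q => (q : ℝ) * F (vt g) := by
    rw [Finsupp.mul_sum]
    apply Finsupp.sum_congr
    intro g _
    ring
  rw [h3, h1, mul_zero]

end Kill

end Pool.Agent.X175.Nov
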