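import Pool.Agent.X175.Nov.Ch
import Pool.Agent.Y75.MQ.Fam

/-!
The transfer on homology along a pair of cocycles which agree up to finite sets.
-/

namespace Pool.Agent.X175.Nov

open Pool.Agent.Y483 Pool.Agent.Y110.KW Pool.Agent.Y75.MQ Finsupp CategoryTheory DirectSum

section Rp

variable {G : Type} [Group G]

/-- The chain `z` represents the rational homology class `x`. -/
abbrev Rp (n : ℕ) (z : T n G ℚ) (x : HQ n G) : Prop := Rpr (Rep.trivial ℚ G ℚ) n z x

theorem rp_range {n : ℕ} {w : T n G ℚ}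
    (h : w ∈ LinearMap.range (dd (1 : Representation ℚ G ℚ) n)) : Rp n w 0 := by
  have hc : Cyc (tQ G) n w := by
    obtain ⟨v, rfl⟩ := h
    exact cyc_dd _ _ _
  obtain ⟨x, hx⟩ := exists_class (A := Rep.trivial ℚ G ℚ) n w hc
  have h2 := hx.eq_zero_iff.mpr h
  rw [h2] at hx
  exact hx

theorem rp_unique {n : ℕ} {w : T n G ℚ} {x y : HQ n G} (hx : Rp n w x) (hy : Rp n w y) :
    x = y := by
  have h := hx.sub hy
  rw [sub_self] at h
  rw [← sub_eq_zero]
  exact h.eq_zero_iff.mpr (Submodule.zero_mem _)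

theorem rp_smul {n : ℕ} {z : T n G ℚ} {x : HQ n G} (q : ℚ) (h : Rp n z x) :
    Rp n (q • z) (q • x) := by
  obtain ⟨y, rfl, rfl⟩ := h
  exact ⟨q • y, map_smul _ _ _, map_smul _ _ _⟩

theorem rp_sum {ι : Type*} (I : Finset ι) {n : ℕ} {z : ι → T n G ℚ}
    {x : ι → HQ n G} (h : ∀ i ∈ I, Rp n (z i) (x i)) :
    Rp n (∑ i ∈ I, z i) (∑ i ∈ I, x i) := by
  classical
  induction I using Finset.induction_on with
  | empty =>
    rw [Finset.sum_empty, Finset.sum_empty]
    exact Rpr.zero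
  | insert a I ha ih =>
    rw [Finset.sum_insert ha, Finset.sum_insert ha]
    exact (h a (Finset.mem_insert_self a I)).add
      (ih fun i hi => h i (Finset.mem_insert_of_mem hi))

end Rp

section

variable {G A K : Type} [Group G] [Group K] (κ : FinPair G A K)

theorem cyc_trT (n : ℕ) (z : T n G ℚ) (hz : Cyc (tQ G) n z) : Cyc (tQ K) n (trT κ n z) := by
  cases n with
  | zero => exact Cyc.zero _ _
  | succ n =>
    rw [cyc_succ] at *
    have h := dd_trT κ n z
    have h2 : dd (1 : Representation ℚ G ℚ) n z = 0 := hz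
    rw [h2, map_zero] at h
    exact h

theorem trH_ex (n : ℕ) (x : HQ n G) :
    ∃ y : HQ n K, ∀ z : T n G ℚ, Rp n z x → Rp n (trT κ n z) y := by
  obtain ⟨z₀, hz₀⟩ := exists_rpr (Rep.trivial ℚ G ℚ) n x
  obtain ⟨y, hy⟩ := exists_class (A := Rep.trivial ℚ K ℚ) n (trT κ n z₀)
    (cyc_trT κ n z₀ hz₀.cyc)
  refine ⟨y, fun z hz => ?_⟩
  have h1 := hz.sub hz₀
  rw [sub_self] at h1
  have h2 : z - z₀ ∈ LinearMap.range (dd (1 : Representation ℚ G ℚ) n) :=
    h1.eq_zero_iff.mp rfl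
  obtain ⟨v, hv⟩ := h2
  have h3 : Rp n (trT κ n (z - z₀)) 0 := by
    apply rp_range
    refine ⟨trT κ (n + 1) v, ?_⟩
    rw [dd_trT, hv]
  have h4 := h3.add hy
  rw [map_sub, sub_add_cancel, zero_add] at h4
  exact h4

/-- The transfer, as a map. -/
noncomputable def trF (n : ℕ) (x : HQ n G) : HQ n K := Classical.choose (trH_ex κ n x)

theorem trF_spec {n : ℕ} {x : HQ n G} {z : T n G ℚ} (h : Rp n z x) :
    Rp n (trT κ n z) (trF κ n x) := Classical.choose_spec (trH_ex κ n x) z h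

/-- The transfer `H_n(G; ℚ) → H_n(K; ℚ)`. -/
noncomputable def trH (n : ℕ) : HQ n G →ₗ[ℚ] HQ n K where
  toFun := trF κ n
  map_add' x y := by
    obtain ⟨z, hz⟩ := exists_rpr (Rep.trivial ℚ G ℚ) n x
    obtain ⟨w, hw⟩ := exists_rpr (Rep.trivial ℚ G ℚ) n y
    have h1 := trF_spec κ (hz.add hw)
    have h2 := (trF_spec κ hz).add (trF_spec κ hw)
    rw [map_add] at h1
    exact rp_unique h1 h2
  map_smul' q x := by
    obtain ⟨z, hz⟩ := exists_rpr (Rep.trivial ℚ G ℚ) n x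
    have h1 := trF_spec κ (rp_smul q hz)
    have h2 := rp_smul q (trF_spec κ hz)
    rw [map_smul] at h1
    exact rp_unique h1 h2

theorem trH_spec {n : ℕ} {x : HQ n G} {z : T n G ℚ} (h : Rp n z x) :
    Rp n (trT κ n z) (trH κ n x) := trF_spec κ h

theorem trH_map {L : Type} [Group L] (κ' : FinPair L A K) (f : G →* L)
    (hc : ∀ b x, tc κ b x = tc κ' b (f x)) (hd : ∀ b x, td κ b x = td κ' b (f x)) (n : ℕ)
    (x : HQ n G) : trH κ n x = trH κ' n (hqMap f n x) := by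
  obtain ⟨z, hz⟩ := exists_rpr (Rep.trivial ℚ G ℚ) n x
  have h1 := trH_spec κ hz
  have h2 := trH_spec κ' (hz.hq f)
  rw [trT_mp κ κ' f hc hd] at h1
  exact rp_unique h1 h2

theorem trH_fix {L : Type} [Group L] (f : L →* G) (Y : Finset A) (lc ld : A → (L →* K))
    (hY : ∀ a ∈ Y, ∀ g, κ.σ (f g) a = a ∧ lc a g = κ.c (f g) a ∧ ld a g = κ.d (f g) a)
    (hY' : ∀ a ∉ Y, ∀ g, κ.c (f g) a = κ.d (f g) a) (n : ℕ) (x : HQ n L) :
    trH κ n (hqMap f n x) = ∑ a ∈ Y, (hqMap (lc a) n x - hqMap (ld a) n x) := by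
  obtain ⟨z, hz⟩ := exists_rpr (Rep.trivial ℚ L ℚ) n x
  have h1 := trH_spec κ (hz.hq f)
  have h2 : Rp n (∑ a ∈ Y, (mp n (lc a) LinearMap.id z - mp n (ld a) LinearMap.id z))
      (∑ a ∈ Y, (hqMap (lc a) n x - hqMap (ld a) n x)) :=
    rp_sum Y fun a _ => (hz.hq (lc a)).sub (hz.hq (ld a))
  rw [trT_fix κ f Y lc ld hY hY'] at h1
  exact rp_unique h1 h2

variable {B : Type} (d : B → ℕ)

/-- The transfer on the total homology. -/
noncomputable def trB : HB d G →ₗ[ℚ] HB d K := DirectSum.lmap (fun b : B => trH κ (d b))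

theorem trB_apply (x : HB d G) (b : B) : trB κ d x b = trH κ (d b) (x b) := by
  unfold trB
  exact DirectSum.lmap_apply _ _ _

theorem trB_of [DecidableEq B] (b : B) (x : HQ (d b) G) :
    trB κ d (DirectSum.of (fun b : B => HQ (d b) G) b x) =
      DirectSum.of (fun b : B => HQ (d b) K) b (trH κ (d b) x) := by
  unfold trB
  exact DirectSum.lmap_lof _ _ _

theorem trB_map {L : Type} [Group L] (κ' : FinPair L A K) (f : G →* L)
    (hc : ∀ b x, tc κ b x = tc κ' b (f x)) (hd : ∀ b x, td κ b x = td κ' b (f x))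
    (x : HB d G) : trB κ d x = trB κ' d (hbMap d f x) := by
  apply DFunLike.ext
  intro b
  rw [trB_apply, trB_apply, hbMap_apply]
  exact trH_map κ κ' f hc hd (d b) (x b)

end

end Pool.Agent.X175.Nov
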